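import Mathlib

set_option autoImplicit false

open Set Topology Filter

namespace Pool.Agent.Helper47.LP

/-- values: a natural number and a point of the Cantor set -/
abbrev AA : Type := ℕ × (ℕ → Bool)

noncomputable def kap (n : ℕ) : ℝ := 10 ^ (10 ^ (2 * n + 1))

noncomputable def gam (b : ℕ → Bool) : ℝ := ∑' j, if b j then ((10 : ℝ) ^ (10 ^ (2 * j)))⁻¹ else 0

noncomputable def TT (j : ℕ) : ℝ := 10 ^ (5 * 10 ^ (2 * j))

def bit (i : ℕ) (p : AA) : Bool := if i % 2 = 0 then decide (p.1 = i / 2) else p.2 (i / 2)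

/-- test functions -/
noncomputable def tau : ℕ → AA → ℝ
  | 0, p => kap p.1
  | 1, p => gam p.2
  | (i + 2), p => if bit i p then 1 else 0

/-- a finitely supported measure evaluated at a function -/
noncomputable def ev {X : Type} (h : X →₀ ℝ) (u : X → ℝ) : ℝ := h.sum (fun x r => r * u x)

theorem ev_add_left {X : Type} (h h' : X →₀ ℝ) (u : X → ℝ) : ev (h + h') u = ev h u + ev h' u := by
  classical
  unfold ev
  exact Finsupp.sum_add_index' (fun x => by simp) (fun x r s => by ring)

theorem ev_smul_left {X : Type} (c : ℝ) (h : X →₀ ℝ) (u : X → ℝ) : ev (c • h) u = c * ev h u := by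
  unfold ev
  rw [Finsupp.sum_smul_index' (fun x => by simp), Finsupp.sum, Finsupp.sum, Finset.mul_sum]
  exact Finset.sum_congr rfl fun x _ => by simp [mul_assoc]

theorem ev_zero_left {X : Type} (u : X → ℝ) : ev (0 : X →₀ ℝ) u = 0 := by
  simp [ev]

theorem ev_single {X : Type} (x : X) (r : ℝ) (u : X → ℝ) : ev (Finsupp.single x r) u = r * u x := by
  simp [ev, Finsupp.sum_single_index]

theorem ev_eq_sum {X : Type} (h : X →₀ ℝ) (u : X → ℝ) (S : Finset X) (hS : h.support ⊆ S) :
    ev h u = ∑ x ∈ S, h x * u x := by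
  unfold ev
  exact Finsupp.sum_of_support_subset h hS _ (fun x _ => by simp)

end Pool.Agent.Helper47.LP
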