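import Mathlib
import Pool.Agent.Helper47.LP.Defs
import Pool.Agent.Helper937.Fact

set_option autoImplicit false

open Set Topology Filter

namespace Pool.Agent.Helper47.LP

open Pool.Agent.Helper937.Fact (BB BB_open Box factor CTight)

theorem box_ball {X : Type} (G : Finset X) (b : X → BB) (g : X → ℝ) (hg : g ∈ Box G b) :
    ∃ ε > 0, ∀ h : X → ℝ, (∀ a ∈ G, |h a - g a| < ε) → h ∈ Box G b := by
  classical
  induction G using Finset.induction_on with
  | empty => exact ⟨1, one_pos, fun h _ a ha => absurd ha (Finset.notMem_empty a)⟩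
  | insert a B _ ih =>
    obtain ⟨ε, hε, h⟩ := ih (fun t ht => hg t (Finset.mem_insert_of_mem ht))
    obtain ⟨ε', hε', h'⟩ := Metric.isOpen_iff.mp (BB_open (b a)) _ (hg a (Finset.mem_insert_self a B))
    refine ⟨min ε ε', lt_min hε hε', fun k hk c hc => ?_⟩
    rcases Finset.mem_insert.mp hc with rfl | hc
    · exact h' (by
        rw [Metric.mem_ball, Real.dist_eq]
        exact lt_of_lt_of_le (hk _ (Finset.mem_insert_self _ B)) (min_le_right _ _))
    · exact h k (fun t ht => lt_of_lt_of_le (hk t (Finset.mem_insert_of_mem ht)) (min_le_left _ _)) c hc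

/-- closed subsets of a perfectly normal dense subspace of a power of the reals depend on countably
many coordinates -/
theorem closed_dep {S T : Type} [TopologicalSpace S] (hn : NormalSpace S)
    (hG : ∀ s : Set S, IsClosed s → IsGδ s) (e : S → T → ℝ) (he : IsInducing e) (hd : DenseRange e)
    (P : Set S) (hP : IsClosed P) :
    ∃ A : Set T, A.Countable ∧ ∀ s ∉ P, ∃ (G : Finset T) (ε : ℝ), (G : Set T) ⊆ A ∧ 0 < ε ∧
      ∀ s', (∀ t ∈ G, |e s' t - e s t| < ε) → s' ∉ P := by
  classical
  obtain ⟨U, hU, hPU⟩ := isGδ_iff_eq_iInter_nat.mp (hG P hP)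
  have hur : ∀ n : ℕ, ∃ A : Set T, A.Countable ∧ ∀ f ∉ U n, ∃ (G : Finset T) (b : T → BB),
      (G : Set T) ⊆ A ∧ e f ∈ Box G b ∧ ∀ z : S, e z ∈ Box G b → z ∉ P := by
    intro n
    have hd' : Disjoint P (U n)ᶜ := by
      rw [Set.disjoint_left]
      intro x hx hx'
      rw [hPU] at hx
      exact hx' (mem_iInter.mp hx n)
    obtain ⟨φ, h1, h2, h3⟩ := exists_continuous_zero_one_of_isClosed hP (hU n).isClosed_compl hd'
    have hK : CTight (Set.Icc (0:ℝ) 1) := by
      intro A x hx
      obtain ⟨s, hs, hs2⟩ := mem_closure_iff_seq_limit.mp hx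
      refine ⟨range s, range_subset_iff.mpr hs, countable_range s, ?_⟩
      exact mem_closure_of_tendsto hs2 (Filter.Eventually.of_forall fun n => mem_range_self n)
    let ψ : S → Set.Icc (0:ℝ) 1 := fun s => ⟨φ s, h3 s⟩
    have hψ : Continuous ψ := φ.continuous.subtype_mk _
    obtain ⟨A, hA, hfac⟩ := factor e ψ he hd hK hψ
    refine ⟨A, hA, fun f hf => ?_⟩
    have hf1 : φ f = 1 := h2 hf
    obtain ⟨G, b, hG1, hb, himg⟩ := hfac f (Subtype.val ⁻¹' (Ioi (1/2 : ℝ)))
      (isOpen_Ioi.preimage continuous_subtype_val) (by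
        show (1/2 : ℝ) < φ f
        rw [hf1]; norm_num)
    refine ⟨G, b, hG1, hb, fun z hz hzP => ?_⟩
    have h4 : (1/2 : ℝ) < φ z := himg z hz
    have h5 : φ z = 0 := h1 hzP
    rw [h5] at h4
    norm_num at h4
  choose A hA hAf using hur
  refine ⟨⋃ n, A n, countable_iUnion hA, fun f hf => ?_⟩
  have h6 : ∃ n, f ∉ U n := by
    by_contra hcon
    push Not at hcon
    apply hf
    rw [hPU]
    exact mem_iInter.mpr hcon
  obtain ⟨n, hn'⟩ := h6
  obtain ⟨G, b, hG1, hb, himg⟩ := hAf n f hn'
  obtain ⟨ε, hε, h7⟩ := box_ball G b (e f) hb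
  exact ⟨G, ε, hG1.trans (subset_iUnion A n), hε, fun g hg => himg g (h7 (e g) hg)⟩

/-- the real vector space of continuous functions -/
def hamelV (X : Type) [TopologicalSpace X] : Submodule ℝ (X → ℝ) where
  carrier := {f | Continuous f}
  add_mem' := fun ha hb => ha.add hb
  zero_mem' := continuous_const
  smul_mem' := fun c _ hf => hf.const_smul c

/-- a continuous function as an element of the vector space -/
def hamelT (X : Type) [TopologicalSpace X] (f : {f : X → ℝ // Continuous f}) : hamelV X :=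
  ⟨f.1, f.2⟩

theorem hamel_lin (X : Type) [TopologicalSpace X] (ψ : {f : X → ℝ // Continuous f} → ℝ)
    (hψ : ψ ∈ Submodule.span ℝ (Set.range
        (fun (x : X) (f : {f : X → ℝ // Continuous f}) => f.1 x))) :
    ∃ Ψ : hamelV X →ₗ[ℝ] ℝ, ∀ f, ψ f = Ψ (hamelT X f) := by
  induction hψ using Submodule.span_induction with
  | mem ψ h =>
    obtain ⟨x, rfl⟩ := h
    exact ⟨(LinearMap.proj x : (X → ℝ) →ₗ[ℝ] ℝ).comp (hamelV X).subtype, fun f => rfl⟩
  | zero => exact ⟨0, fun f => rfl⟩
  | add ψ₁ ψ₂ _ _ h1 h2 =>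
    obtain ⟨Ψ₁, h1⟩ := h1
    obtain ⟨Ψ₂, h2⟩ := h2
    refine ⟨Ψ₁ + Ψ₂, fun f => ?_⟩
    rw [Pi.add_apply, h1, h2]; rfl
  | smul c ψ _ h1 =>
    obtain ⟨Ψ₁, h1⟩ := h1
    refine ⟨c • Ψ₁, fun f => ?_⟩
    rw [Pi.smul_apply, h1]; rfl

/-- a Hamel basis of `C(X,ℝ)` turns `L_p(X)` into a dense subspace of a power of the reals -/
theorem hamel (X : Type) [TopologicalSpace X] :
    ∃ B : Set {f : X → ℝ // Continuous f},
      IsInducing (fun (ψ : ↥(Submodule.span ℝ (Set.range
        (fun (x : X) (f : {f : X → ℝ // Continuous f}) => f.1 x)))) (b : B) => ψ.1 b.1) ∧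
      DenseRange (fun (ψ : ↥(Submodule.span ℝ (Set.range
        (fun (x : X) (f : {f : X → ℝ // Continuous f}) => f.1 x)))) (b : B) => ψ.1 b.1) := by
  classical
  let S0 : Set (hamelV X) := Module.Basis.ofVectorSpaceIndex ℝ (hamelV X)
  let bas : Module.Basis S0 ℝ (hamelV X) := Module.Basis.ofVectorSpace ℝ (hamelV X)
  have hbas : ∀ i : S0, bas i = i.1 := fun i => by
    simp [bas, S0]
  let B : Set {f : X → ℝ // Continuous f} := {f | hamelT X f ∈ S0}
  -- the inverse index map
  let j : S0 → B := fun i => ⟨⟨i.1.1, i.1.2⟩, i.2⟩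
  refine ⟨B, ?_, ?_⟩
  · let G : (B → ℝ) → ({f : X → ℝ // Continuous f} → ℝ) := fun y f =>
      ∑ i ∈ (bas.repr (hamelT X f)).support, (bas.repr (hamelT X f)) i * y (j i)
    have hG : Continuous G := by
      refine continuous_pi fun f => ?_
      exact continuous_finset_sum _ fun i _ => continuous_const.mul (continuous_apply _)
    refine IsInducing.of_comp ?_ hG ?_
    · refine continuous_pi fun b => ?_
      exact (continuous_apply b.1).comp continuous_subtype_val
    · have h1 : (G ∘ fun (ψ : ↥(Submodule.span ℝ (Set.range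
        (fun (x : X) (f : {f : X → ℝ // Continuous f}) => f.1 x)))) (b : B) => ψ.1 b.1) =
        Subtype.val := by
        funext ψ f
        obtain ⟨Ψ, hΨ⟩ := hamel_lin X ψ.1 ψ.2
        show ∑ i ∈ (bas.repr (hamelT X f)).support, (bas.repr (hamelT X f)) i * ψ.1 (j i).1 =
          ψ.1 f
        have h2 : ∀ i : S0, ψ.1 (j i).1 = Ψ (bas i) := by
          intro i
          rw [hΨ, hbas]
          rfl
        rw [hΨ f]
        conv_rhs => rw [← bas.linearCombination_repr (hamelT X f)]
        rw [Finsupp.linearCombination_apply, Finsupp.sum, map_sum]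
        refine Finset.sum_congr rfl fun i _ => ?_
        rw [h2, map_smul, smul_eq_mul]
      rw [h1]
      exact IsInducing.subtypeVal
  · -- interpolation
    have hint : ∀ (F : Finset B) (y : B → ℝ), ∃ ψ : ↥(Submodule.span ℝ (Set.range
        (fun (x : X) (f : {f : X → ℝ // Continuous f}) => f.1 x))), ∀ b ∈ F, ψ.1 b.1 = y b := by
      intro F y
      let ρ : ({f : X → ℝ // Continuous f} → ℝ) →ₗ[ℝ] (F → ℝ) :=
        { toFun := fun ψ b => ψ b.1.1
          map_add' := fun _ _ => rfl
          map_smul' := fun _ _ => rfl }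
      have htop : Submodule.map ρ (Submodule.span ℝ (Set.range
        (fun (x : X) (f : {f : X → ℝ // Continuous f}) => f.1 x))) = ⊤ := by
        by_contra hne
        obtain ⟨φ, hφ0, hφ⟩ := Submodule.exists_le_ker_of_lt_top _ (lt_top_iff_ne_top.mpr hne)
        -- coefficients
        have hli0 : LinearIndependent ℝ (fun i : S0 => i.1) := by
          have := bas.linearIndependent
          have h2 : (bas : S0 → hamelV X) = fun i => i.1 := funext hbas
          rwa [h2] at this
        have hli : LinearIndependent ℝ (fun b : F => hamelT X b.1.1) := by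
          refine hli0.comp (fun b : F => (⟨hamelT X b.1.1, b.1.2⟩ : S0)) ?_
          intro b b' hbb
          have h1 : hamelT X b.1.1 = hamelT X b'.1.1 := congrArg Subtype.val hbb
          have h2 : b.1.1.1 = b'.1.1.1 := congrArg Subtype.val h1
          exact Subtype.ext (Subtype.ext (Subtype.ext h2))
        have hx : ∀ x : X, ∑ b : F, φ (Pi.single b 1) * b.1.1.1 x = 0 := by
          intro x
          have h1 : ρ (fun f => f.1 x) ∈ LinearMap.ker φ :=
            hφ (Submodule.mem_map_of_mem (Submodule.subset_span ⟨x, rfl⟩))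
          rw [LinearMap.mem_ker] at h1
          rw [← h1]
          conv_rhs => rw [← LinearMap.sum_single_apply (φ := fun _ : F => ℝ)
            (ρ (fun f : {f : X → ℝ // Continuous f} => f.1 x))]
          rw [map_sum]
          refine Finset.sum_congr rfl fun b _ => ?_
          have h2 : (Pi.single b (ρ (fun f : {f : X → ℝ // Continuous f} => f.1 x) b) : F → ℝ) =
              (b.1.1.1 x) • Pi.single b 1 := by
            rw [← Pi.single_smul, smul_eq_mul, mul_one]
            rfl
          show _ = φ (Pi.single b (ρ (fun f : {f : X → ℝ // Continuous f} => f.1 x) b))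
          rw [h2, map_smul, smul_eq_mul, mul_comm]
        have hsum : ∑ b : F, φ (Pi.single b 1) • hamelT X b.1.1 = 0 := by
          apply Subtype.ext
          funext x
          refine Eq.trans ?_ (hx x)
          rw [Submodule.coe_sum, Finset.sum_apply]
          rfl
        have hc := Fintype.linearIndependent_iff.mp hli (fun b => φ (Pi.single b 1)) hsum
        apply hφ0
        apply LinearMap.pi_ext'
        intro b
        ext
        simpa using hc b
      have hy : (fun b : F => y b.1) ∈ Submodule.map ρ (Submodule.span ℝ (Set.range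
        (fun (x : X) (f : {f : X → ℝ // Continuous f}) => f.1 x))) := by
        rw [htop]; trivial
      obtain ⟨ψ, hψ, hψy⟩ := hy
      exact ⟨⟨ψ, hψ⟩, fun b hb => congrFun hψy ⟨b, hb⟩⟩
    intro y
    rw [mem_closure_iff]
    intro U hU hyU
    rw [isOpen_pi_iff] at hU
    obtain ⟨F, u, hu, huU⟩ := hU y hyU
    obtain ⟨ψ, hψ⟩ := hint F y
    refine ⟨_, huU ?_, ⟨ψ, rfl⟩⟩
    intro b hb
    show ψ.1 b.1 ∈ u b
    rw [hψ b hb]
    exact (hu b hb).2


/-! ### J8 : perfect normality of L_p gives countable dependence -/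

abbrev Lp (X : Type) [TopologicalSpace X] : Type :=
  ↥(Submodule.span ℝ (Set.range (fun (x : X) (f : {f : X → ℝ // Continuous f}) => f.1 x)))

theorem depends (X : Type) [TopologicalSpace X] (hL : PerfectlyNormalSpace (Lp X))
    (F : Set (Lp X)) (hF : IsClosed F) :
    ∃ W : Set {f : X → ℝ // Continuous f}, W.Countable ∧ ∀ ψ₀ ∉ F,
      ∃ (G : Finset {f : X → ℝ // Continuous f}) (η : ℝ), (G : Set {f : X → ℝ // Continuous f}) ⊆ W ∧
        0 < η ∧ ∀ ψ : Lp X, (∀ w ∈ G, |ψ.1 w - ψ₀.1 w| < η) → ψ ∉ F := by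
  classical
  obtain ⟨B, hB1, hB2⟩ := hamel X
  obtain ⟨A, hA, h⟩ := closed_dep (S := Lp X) (T := B) hL.toNormalSpace (fun s hs => hL.closed_gdelta hs)
    _ hB1 hB2 F hF
  refine ⟨Subtype.val '' A, hA.image _, fun ψ₀ hψ₀ => ?_⟩
  obtain ⟨G, ε, hG, hε, h'⟩ := h ψ₀ hψ₀
  refine ⟨G.image Subtype.val, ε, ?_, hε, fun ψ hψ => h' ψ fun t ht => ?_⟩
  · intro w hw
    rw [Finset.mem_coe, Finset.mem_image] at hw
    obtain ⟨t, ht, rfl⟩ := hw
    exact ⟨t, hG ht, rfl⟩
  · exact hψ t.1 (Finset.mem_image_of_mem _ ht)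

end Pool.Agent.Helper47.LP
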