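import Mathlib
import Pool.Agent.Helper47.LP.Defs

set_option autoImplicit false

open Set Topology Filter

namespace Pool.Agent.Helper47.LP

noncomputable def h170_c (j : ℕ) : ℝ := ((10 : ℝ) ^ (10 ^ (2 * j)))⁻¹

theorem h170_c_pos (j : ℕ) : 0 < h170_c j := by
  unfold h170_c
  positivity

theorem h170_c_succ (j : ℕ) : h170_c (j + 1) ≤ h170_c j * (1 / 10) := by
  unfold h170_c
  have h1 : (10 : ℝ) ^ (10 ^ (2 * j)) * 10 ≤ (10 : ℝ) ^ (10 ^ (2 * (j + 1))) := by
    rw [← pow_succ]
    apply pow_le_pow_right₀ (by norm_num)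
    have h2 : 10 ^ (2 * (j + 1)) = 10 ^ (2 * j) * 100 := by
      rw [show 2 * (j + 1) = 2 * j + 2 by ring, pow_add]
      norm_num
    have h3 : 1 ≤ 10 ^ (2 * j) := Nat.one_le_pow _ _ (by norm_num)
    omega
  have h4 : (0 : ℝ) < (10 : ℝ) ^ (10 ^ (2 * j)) := by positivity
  calc ((10 : ℝ) ^ (10 ^ (2 * (j + 1))))⁻¹ ≤ ((10 : ℝ) ^ (10 ^ (2 * j)) * 10)⁻¹ :=
        inv_anti₀ (by positivity) h1
    _ = ((10 : ℝ) ^ (10 ^ (2 * j)))⁻¹ * (1 / 10) := by
        rw [mul_inv, one_div]

theorem h170_c_add (i k : ℕ) : h170_c (k + i) ≤ h170_c i * (1 / 10) ^ k := by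
  induction k with
  | zero => simp
  | succ k ih =>
    have h1 := h170_c_succ (k + i)
    rw [show k + 1 + i = k + i + 1 by ring, pow_succ]
    nlinarith [h1, ih]

theorem h170_c_summable : Summable h170_c := by
  have h1 : Summable (fun k : ℕ => h170_c 0 * (1 / 10 : ℝ) ^ k) :=
    (summable_geometric_of_lt_one (by norm_num) (by norm_num)).mul_left _
  apply Summable.of_nonneg_of_le (fun j => (h170_c_pos j).le) _ h1
  intro j
  exact h170_c_add 0 j

theorem h170_c_tail (i : ℕ) : ∑' k, h170_c (k + (i + 1)) < h170_c i := by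
  have h1 : HasSum (fun k : ℕ => h170_c (i + 1) * (1 / 10 : ℝ) ^ k)
      (h170_c (i + 1) * (1 - 1 / 10)⁻¹) :=
    (hasSum_geometric_of_lt_one (by norm_num) (by norm_num)).mul_left _
  have h2 : ∑' k, h170_c (k + (i + 1)) ≤ h170_c (i + 1) * (1 - 1 / 10)⁻¹ := by
    rw [← h1.tsum_eq]
    apply Summable.tsum_le_tsum _ ((summable_nat_add_iff (i + 1)).2 h170_c_summable) h1.summable
    intro k
    exact h170_c_add (i + 1) k
  have h3 := h170_c_succ i
  have h4 := h170_c_pos i
  have h5 := h170_c_pos (i + 1)
  have h6 : h170_c (i + 1) * (1 - 1 / 10)⁻¹ = h170_c (i + 1) * (10 / 9) := by norm_num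
  rw [h6] at h2
  linarith

noncomputable def h170_t (b : ℕ → Bool) (j : ℕ) : ℝ := if b j then h170_c j else 0

theorem h170_gam_eq (b : ℕ → Bool) : gam b = ∑' j, h170_t b j := rfl

theorem h170_t_nonneg (b : ℕ → Bool) (j : ℕ) : 0 ≤ h170_t b j := by
  unfold h170_t
  split_ifs
  · exact (h170_c_pos j).le
  · exact le_rfl

theorem h170_t_le (b : ℕ → Bool) (j : ℕ) : h170_t b j ≤ h170_c j := by
  unfold h170_t
  split_ifs
  · exact le_rfl
  · exact (h170_c_pos j).le

theorem h170_t_summable (b : ℕ → Bool) : Summable (h170_t b) :=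
  Summable.of_nonneg_of_le (h170_t_nonneg b) (h170_t_le b) h170_c_summable

theorem h170_gam_lt (b b' : ℕ → Bool) (i : ℕ) (h : ∀ j < i, b j = b' j) (hb : b i = true)
    (hb' : b' i = false) : gam b' < gam b := by
  rw [h170_gam_eq, h170_gam_eq, ← (h170_t_summable b).sum_add_tsum_nat_add i,
    ← (h170_t_summable b').sum_add_tsum_nat_add (i + 1), Finset.sum_range_succ]
  have h1 : ∑ j ∈ Finset.range i, h170_t b j = ∑ j ∈ Finset.range i, h170_t b' j := by
    apply Finset.sum_congr rfl
    intro j hj
    unfold h170_t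
    rw [h j (Finset.mem_range.1 hj)]
  have h2 : h170_t b' i = 0 := by
    unfold h170_t
    simp [hb']
  have h3 : ∑' k, h170_t b' (k + (i + 1)) < h170_c i := by
    refine lt_of_le_of_lt ?_ (h170_c_tail i)
    apply Summable.tsum_le_tsum _ ((summable_nat_add_iff (i + 1)).2 (h170_t_summable b'))
      ((summable_nat_add_iff (i + 1)).2 h170_c_summable)
    intro k
    exact h170_t_le b' _
  have h4 : h170_c i ≤ ∑' k, h170_t b (k + i) := by
    have h5 := ((summable_nat_add_iff i).2 (h170_t_summable b)).le_tsum 0
      (fun j _ => h170_t_nonneg b _)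
    have h6 : h170_t b (0 + i) = h170_c i := by
      unfold h170_t
      simp [hb]
    rw [h6] at h5
    exact h5
  rw [h1, h2]
  linarith

theorem h170_gam_inj : Function.Injective gam := by
  intro b b' hbb
  by_contra hne
  have hex : ∃ i, b i ≠ b' i := by
    by_contra hcon
    push Not at hcon
    exact hne (funext hcon)
  classical
  have h1 := Nat.find_spec hex
  have h2 : ∀ j < Nat.find hex, b j = b' j := by
    intro j hj
    have := Nat.find_min hex hj
    push Not at this
    exact this
  rcases hb : b (Nat.find hex) with _ | _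
  · have hb' : b' (Nat.find hex) = true := by
      rw [hb] at h1
      rcases h : b' (Nat.find hex) with _ | _
      · exact absurd h.symm h1
      · rfl
    have := h170_gam_lt b' b _ (fun j hj => (h2 j hj).symm) hb' hb
    exact absurd hbb (ne_of_lt this)
  · have hb' : b' (Nat.find hex) = false := by
      rw [hb] at h1
      rcases h : b' (Nat.find hex) with _ | _
      · rfl
      · exact absurd h.symm h1
    have := h170_gam_lt b b' _ h2 hb hb'
    exact absurd hbb.symm (ne_of_lt this)

theorem h170_gam_cont : Continuous gam := by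
  have h1 : gam = fun b => ∑' j, h170_t b j := funext h170_gam_eq
  rw [h1]
  apply continuous_tsum (u := h170_c) _ h170_c_summable
  · intro j b
    rw [Real.norm_of_nonneg (h170_t_nonneg b j)]
    exact h170_t_le b j
  · intro j
    have h2 : Continuous (fun t : Bool => if t = true then h170_c j else 0) :=
      continuous_of_discreteTopology
    exact h2.comp (continuous_apply j)

theorem h170_kap_inducing : IsInducing kap := by
  have h1 : kap = (Nat.cast : ℕ → ℝ) ∘ (fun n : ℕ => 10 ^ (10 ^ (2 * n + 1))) := by
    funext n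
    simp [kap]
  rw [h1]
  have h2 : Function.Injective (fun n : ℕ => 10 ^ (10 ^ (2 * n + 1))) := by
    intro m n hmn
    have h3 := Nat.pow_right_injective (le_refl 2 |>.trans (by norm_num : 2 ≤ 10)) hmn
    have h4 := Nat.pow_right_injective (le_refl 2 |>.trans (by norm_num : 2 ≤ 10)) h3
    omega
  have h3 : IsOpenEmbedding (fun n : ℕ => 10 ^ (10 ^ (2 * n + 1))) :=
    IsOpenEmbedding.of_continuous_injective_isOpenMap continuous_of_discreteTopology h2
      (fun s _ => isOpen_discrete _)
  exact (Nat.isClosedEmbedding_coe_real.isEmbedding.isInducing).comp h3.isEmbedding.isInducing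

theorem inducing_code : IsInducing (fun p : AA => (kap p.1, gam p.2)) := by
  have h1 : IsInducing gam := (h170_gam_cont.isClosedEmbedding h170_gam_inj).isInducing
  exact h170_kap_inducing.prodMap h1

theorem continuous_tau (i : ℕ) : Continuous (tau i) := by
  rcases i with _ | _ | i
  · have h1 : Continuous (fun p : AA => kap p.1) := h170_kap_inducing.continuous.comp continuous_fst
    exact h1
  · have h1 : Continuous (fun p : AA => gam p.2) := h170_gam_cont.comp continuous_snd
    exact h1
  · have h1 : Continuous (bit i) := by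
      unfold bit
      by_cases hi : i % 2 = 0
      · simp only [hi, if_true]
        have h2 : Continuous (fun m : ℕ => decide (m = i / 2)) := continuous_of_discreteTopology
        exact h2.comp continuous_fst
      · simp only [hi, if_false]
        exact (continuous_apply (i / 2)).comp continuous_snd
    have h2 : Continuous (fun t : Bool => if t = true then (1 : ℝ) else 0) :=
      continuous_of_discreteTopology
    exact h2.comp h1


end Pool.Agent.Helper47.LP
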