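import Mathlib
import Pool.Agent.Helper47.LP.Defs

set_option autoImplicit false

open Set Topology Filter

namespace Pool.Agent.Helper47.LP

theorem ed_sep {X : Type} (n : ℕ) : ∀ (W : Submodule ℝ (X → ℝ)) [FiniteDimensional ℝ W],
    Module.finrank ℝ W = n → ∃ P : Finset X, ∀ u ∈ W, (∀ x ∈ P, u x = 0) → u = 0 := by
  classical
  induction n using Nat.strong_induction_on with
  | _ n ih =>
    intro W _ hn
    by_cases hW : W = ⊥
    · refine ⟨∅, fun u hu _ => ?_⟩
      rw [hW, Submodule.mem_bot] at hu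
      exact hu
    · obtain ⟨u, hu, hu0⟩ := Submodule.exists_mem_ne_zero_of_ne_bot hW
      obtain ⟨y, hy⟩ := Function.ne_iff.1 hu0
      let W' : Submodule ℝ (X → ℝ) := W ⊓ LinearMap.ker (LinearMap.proj (R := ℝ) (φ := fun _ => ℝ) y)
      have hle : W' ≤ W := inf_le_left
      have hlt : W' < W := by
        refine lt_of_le_of_ne hle fun heq => ?_
        have h1 : u ∈ W' := by rw [heq]; exact hu
        have h2 := (Submodule.mem_inf.1 h1).2
        rw [LinearMap.mem_ker] at h2
        exact hy h2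
      haveI : FiniteDimensional ℝ W' := Submodule.finiteDimensional_of_le hle
      have hfr : Module.finrank ℝ W' < n := by
        rw [← hn]
        exact Submodule.finrank_lt_finrank_of_lt hlt
      obtain ⟨P, hP⟩ := ih _ hfr W' rfl
      refine ⟨insert y P, fun v hv hv0 => hP v ?_ fun x hx => hv0 x (Finset.mem_insert_of_mem hx)⟩
      refine Submodule.mem_inf.2 ⟨hv, ?_⟩
      rw [LinearMap.mem_ker]
      exact hv0 y (Finset.mem_insert_self _ _)

theorem exists_dual {X : Type} (G : Finset (X → ℝ)) :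
    ∃ (d : ℕ) (x : Fin d → X) (w : Fin d → X → ℝ),
      (∀ j, w j ∈ Submodule.span ℝ (G : Set (X → ℝ))) ∧
      ∀ u ∈ Submodule.span ℝ (G : Set (X → ℝ)), ∀ y, u y = ∑ j, u (x j) * w j y := by
  classical
  haveI : FiniteDimensional ℝ (Submodule.span ℝ (G : Set (X → ℝ))) :=
    FiniteDimensional.span_finset ℝ G
  obtain ⟨P, hP⟩ := ed_sep _ (Submodule.span ℝ (G : Set (X → ℝ))) rfl
  let x : Fin P.card → X := fun j => (P.equivFin.symm j : X)
  let ρ : Submodule.span ℝ (G : Set (X → ℝ)) →ₗ[ℝ] (Fin P.card → ℝ) :=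
    { toFun := fun u j => (u : X → ℝ) (x j)
      map_add' := fun u v => rfl
      map_smul' := fun c u => rfl }
  have hρ : LinearMap.ker ρ = ⊥ := by
    rw [LinearMap.ker_eq_bot']
    intro u hu
    apply Subtype.ext
    refine hP u u.2 fun y hy => ?_
    have h1 := congrFun hu (P.equivFin ⟨y, hy⟩)
    change (u : X → ℝ) (x (P.equivFin ⟨y, hy⟩)) = 0 at h1
    simp only [x, Equiv.symm_apply_apply] at h1
    exact h1
  obtain ⟨L, hL⟩ := ρ.exists_leftInverse_of_injective hρ
  refine ⟨P.card, x, fun j => (L (Pi.single j 1) : X → ℝ), fun j => (L _).2, fun u hu y => ?_⟩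
  have h1 : L (ρ ⟨u, hu⟩) = ⟨u, hu⟩ := by
    have := LinearMap.congr_fun hL ⟨u, hu⟩
    exact this
  have h2 : ρ ⟨u, hu⟩ = ∑ j, (u (x j)) • (Pi.single j (1 : ℝ) : Fin P.card → ℝ) := by
    funext i
    rw [Finset.sum_apply, Finset.sum_eq_single i]
    · change u (x i) = _
      simp
    · intro j _ hj
      simp [Pi.single_apply, hj.symm]
    · intro h
      exact absurd (Finset.mem_univ _) h
  have h3 : (⟨u, hu⟩ : Submodule.span ℝ (G : Set (X → ℝ)))
      = ∑ j, (u (x j)) • L (Pi.single j (1 : ℝ)) := by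
    rw [← h1, h2, map_sum]
    simp only [map_smul]
  have h4 := congrArg (fun v : Submodule.span ℝ (G : Set (X → ℝ)) => (v : X → ℝ) y) h3
  simp only at h4
  rw [h4, Submodule.coe_sum, Finset.sum_apply]
  rfl

theorem mem_span_of_ann {X : Type} (G : Finset (X → ℝ)) (u : X → ℝ)
    (h : ∀ h : X →₀ ℝ, (∀ w ∈ G, ev h w = 0) → ev h u = 0) :
    u ∈ Submodule.span ℝ (G : Set (X → ℝ)) := by
  classical
  obtain ⟨d, x, w, hw, hd⟩ := exists_dual G
  have hev : ∀ (y : X) (v : X → ℝ),
      ev (Finsupp.single y 1 + ∑ j, (-(w j y)) • Finsupp.single (x j) (1 : ℝ)) v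
        = v y - ∑ j, v (x j) * w j y := by
    intro y v
    have hsum : ∀ S : Finset (Fin d),
        ev (∑ j ∈ S, (-(w j y)) • Finsupp.single (x j) (1 : ℝ)) v
          = - ∑ j ∈ S, v (x j) * w j y := by
      intro S
      induction S using Finset.induction_on with
      | empty => simp [ev_zero_left]
      | insert j S hj ih =>
        rw [Finset.sum_insert hj, ev_add_left, ih, ev_smul_left, ev_single,
          Finset.sum_insert hj]
        ring
    rw [ev_add_left, ev_single, hsum]
    ring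
  have hu : u = ∑ j, u (x j) • w j := by
    funext y
    have h1 := h _ (fun v hv => by
      rw [hev y v, ← hd v (Submodule.subset_span hv) y, sub_self])
    rw [hev y u] at h1
    rw [Finset.sum_apply]
    simp only [Pi.smul_apply, smul_eq_mul]
    linarith
  rw [hu]
  exact Submodule.sum_mem _ fun j _ => Submodule.smul_mem _ _ (hw j)

theorem exists_P {X : Type} (G : Finset (X → ℝ)) :
    ∃ P : Finset X, ∀ Z : Set X, Z.Nonempty →
      Z.indicator (fun _ => (1 : ℝ)) ∈ Submodule.span ℝ (G : Set (X → ℝ)) → ∃ x ∈ Z, x ∈ P := by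
  classical
  obtain ⟨d, x, w, hw, hd⟩ := exists_dual G
  let Q : Finset (Fin d) → Set X → Prop := fun b Z => Z.Nonempty ∧
    Z.indicator (fun _ => (1 : ℝ)) ∈ Submodule.span ℝ (G : Set (X → ℝ)) ∧
    Finset.univ.filter (fun j => x j ∈ Z) = b
  refine ⟨Finset.univ.biUnion fun b : Finset (Fin d) =>
    if h : ∃ Z, Q b Z then {(h.choose_spec.1).some} else ∅, fun Z hZ hZs => ?_⟩
  set b := Finset.univ.filter (fun j => x j ∈ Z) with hb
  have hex : ∃ Z, Q b Z := ⟨Z, hZ, hZs, rfl⟩
  refine ⟨(hex.choose_spec.1).some, ?_, ?_⟩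
  · obtain ⟨h1, h2, h3⟩ := hex.choose_spec
    have hpt := h1.some_mem
    have hpat : ∀ j, x j ∈ hex.choose ↔ x j ∈ Z := by
      intro j
      have e1 : j ∈ Finset.univ.filter (fun j => x j ∈ hex.choose) ↔ j ∈ b := by rw [h3]
      simpa [hb] using e1
    have hind : ∀ y, hex.choose.indicator (fun _ => (1 : ℝ)) y = Z.indicator (fun _ => (1 : ℝ)) y := by
      intro y
      rw [hd _ h2 y, hd _ hZs y]
      refine Finset.sum_congr rfl fun j _ => ?_
      congr 1
      by_cases hj : x j ∈ Z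
      · rw [Set.indicator_of_mem hj, Set.indicator_of_mem ((hpat j).2 hj)]
      · rw [Set.indicator_of_notMem hj, Set.indicator_of_notMem (fun h => hj ((hpat j).1 h))]
    by_contra hc
    have h5 := hind h1.some
    rw [Set.indicator_of_mem hpt, Set.indicator_of_notMem hc] at h5
    exact one_ne_zero h5
  · rw [Finset.mem_biUnion]
    refine ⟨b, Finset.mem_univ _, ?_⟩
    rw [dif_pos hex]
    exact Finset.mem_singleton_self _



end Pool.Agent.Helper47.LP
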