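import Mathlib
import Pool.Agent.Helper47.LP.Defs

set_option autoImplicit false

open Set Topology Filter

namespace Pool.Agent.Helper47.LP

theorem kl_pos (n : ℕ) : 0 < kap n := by unfold kap; positivity

theorem kl_one_le (n : ℕ) : 1 ≤ kap n := by
  unfold kap
  exact one_le_pow₀ (by norm_num)

theorem kl_exp (m n : ℕ) (h : m < n) : 10 ^ (2 * m + 1) + n ≤ 10 ^ (2 * n + 1) := by
  obtain ⟨k, rfl⟩ : ∃ k, n = k + 1 := ⟨n - 1, by omega⟩
  have h1 : 10 ^ (2 * m + 1) ≤ 10 ^ (2 * k + 1) := Nat.pow_le_pow_right (by norm_num) (by omega)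
  have h2 : 2 * k + 1 < 10 ^ (2 * k + 1) := Nat.lt_pow_self (by norm_num)
  have h3 : 10 ^ (2 * (k + 1) + 1) = 100 * 10 ^ (2 * k + 1) := by
    rw [show 2 * (k + 1) + 1 = (2 * k + 1) + 2 by ring, pow_add]
    ring
  rw [h3]
  omega

theorem kl_ratio (m n : ℕ) (h : m < n) : kap m * 10 ^ n ≤ kap n := by
  unfold kap
  rw [← pow_add]
  exact pow_le_pow_right₀ (by norm_num) (kl_exp m n h)

theorem kl_le (n : ℕ) : (n : ℝ) ≤ kap n := by
  have h1 : n < 10 ^ (2 * n + 1) := lt_of_lt_of_le (Nat.lt_pow_self (by norm_num : 1 < 10))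
    (Nat.pow_le_pow_right (by norm_num) (by omega))
  have h2 : 10 ^ (2 * n + 1) < 10 ^ (10 ^ (2 * n + 1)) := Nat.lt_pow_self (by norm_num)
  have h3 : n ≤ 10 ^ (10 ^ (2 * n + 1)) := by omega
  unfold kap
  exact_mod_cast h3

theorem kl_tendsto {ι : Type} {F : Filter ι} {n : ι → ℕ} (hn : Tendsto n F atTop) :
    Tendsto (fun s => kap (n s)) F atTop :=
  tendsto_atTop_mono (fun s => kl_le (n s)) (tendsto_natCast_atTop_atTop.comp hn)

theorem kl_lt {ι : Type} {F : Filter ι} {a n : ι → ℕ} (hn : Tendsto n F atTop)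
    (h : ∀ᶠ s in F, a s < n s) : Tendsto (fun s => kap (a s) / kap (n s)) F (𝓝 0) := by
  have h1 : Tendsto (fun s => (1 / 10 : ℝ) ^ (n s)) F (𝓝 0) :=
    (tendsto_pow_atTop_nhds_zero_of_lt_one (by norm_num) (by norm_num)).comp hn
  refine tendsto_of_tendsto_of_tendsto_of_le_of_le' tendsto_const_nhds h1 ?_ ?_
  · filter_upwards with s
    exact (div_pos (kl_pos _) (kl_pos _)).le
  · filter_upwards [h] with s hs
    rw [div_le_iff₀ (kl_pos _), one_div, inv_pow, inv_mul_eq_div, le_div_iff₀ (by positivity)]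
    exact kl_ratio _ _ hs

theorem kl_gt {ι : Type} {F : Filter ι} {a n : ι → ℕ} (hn : Tendsto n F atTop)
    (h : ∀ᶠ s in F, n s < a s) : Tendsto (fun s => kap (a s) / kap (n s)) F atTop := by
  have h1 : Tendsto (fun s => ((n s : ℕ) : ℝ)) F atTop := tendsto_natCast_atTop_atTop.comp hn
  refine tendsto_atTop_mono' _ ?_ h1
  filter_upwards [h] with s hs
  rw [le_div_iff₀ (kl_pos _)]
  have h2 := kl_ratio _ _ hs
  have h3 : ((n s : ℕ) : ℝ) ≤ 10 ^ (a s) := by
    have h4 : n s ≤ 10 ^ (a s) := by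
      have := Nat.lt_pow_self (n := a s) (by norm_num : 1 < 10)
      omega
    exact_mod_cast h4
  calc ((n s : ℕ) : ℝ) * kap (n s) ≤ 10 ^ (a s) * kap (n s) :=
        mul_le_mul_of_nonneg_right h3 (kl_pos _).le
    _ = kap (n s) * 10 ^ (a s) := mul_comm _ _
    _ ≤ kap (a s) := h2

theorem kl_eq {ι : Type} {F : Filter ι} {a n : ι → ℕ}
    (h : ∀ᶠ s in F, a s = n s) : Tendsto (fun s => kap (a s) / kap (n s)) F (𝓝 1) := by
  refine tendsto_const_nhds.congr' ?_
  filter_upwards [h] with s hs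
  rw [hs, div_self (kl_pos _).ne']

theorem kl_dich {ι : Type} (𝒰 : Ultrafilter ι) (a : ι → ℕ) :
    (∃ n, ∀ᶠ s in (𝒰 : Filter ι), a s = n) ∨ Tendsto a 𝒰 atTop := by
  by_cases h : ∃ K, ∀ᶠ s in (𝒰 : Filter ι), a s ≤ K
  · left
    obtain ⟨K, hK⟩ := h
    have h1 : ∀ᶠ s in (𝒰 : Filter ι), ∃ n ∈ (Finset.range (K + 1) : Set ℕ), a s = n := by
      filter_upwards [hK] with s hs
      exact ⟨a s, by simpa using Nat.lt_succ_of_le hs, rfl⟩
    obtain ⟨n, _, hn⟩ := (Ultrafilter.eventually_exists_mem_iff (Finset.finite_toSet _)).1 h1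
    exact ⟨n, hn⟩
  · right
    push Not at h
    rw [tendsto_atTop]
    intro K
    filter_upwards [h K] with s hs
    omega

theorem kap_limit {X ι : Type} (𝒰 : Ultrafilter ι) (u : ι → X → ℕ) (d : ℕ) (x : Fin d → X)
    (w : Fin d → X → ℝ) (V : Submodule ℝ (X → ℝ)) (hw : ∀ j, w j ∈ V)
    (hu : ∀ y, Tendsto (fun s => kap (u s y) - ∑ j, kap (u s (x j)) * w j y) 𝒰 (𝓝 0))
    (ψ : X →₀ ℝ) (hψ : ∀ x, 0 ≤ ψ x)
    (hZ : ∀ Z : Set X, Z.Nonempty → Z.indicator (fun _ => (1 : ℝ)) ∈ V → ∃ x ∈ Z, 0 < ψ x)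
    (C : ℝ) (hC : ∀ s, |ev ψ (fun y => kap (u s y))| ≤ C) :
    ∀ y, ∃ n, ∀ᶠ s in (𝒰 : Filter ι), u s y = n := by
  have hconst : ∀ j, ∃ n, ∀ᶠ s in (𝒰 : Filter ι), u s (x j) = n := by
    by_contra hcon
    push Not at hcon
    obtain ⟨j0, hj0⟩ := hcon
    have ht0 : Tendsto (fun s => u s (x j0)) 𝒰 atTop := by
      rcases kl_dich 𝒰 (fun s => u s (x j0)) with h | h
      · obtain ⟨n, hn⟩ := h
        obtain ⟨s, hs1, hs2⟩ := (hn.and (hj0 n)).exists
        exact absurd hs1 hs2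
      · exact h
    have : Nonempty (Fin d) := ⟨j0⟩
    have hmax : ∀ᶠ s in (𝒰 : Filter ι), ∃ j, ∀ j', u s (x j') ≤ u s (x j) := by
      filter_upwards with s
      exact Finite.exists_max (fun j => u s (x j))
    obtain ⟨j1, hj1⟩ := Ultrafilter.eventually_exists_iff.1 hmax
    obtain ⟨n, hn⟩ : ∃ n : ι → ℕ, n = fun s => u s (x j1) := ⟨_, rfl⟩
    have hnt : Tendsto n 𝒰 atTop := by
      refine tendsto_atTop_mono' _ ?_ ht0
      filter_upwards [hj1] with s hs
      rw [hn]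
      exact hs j0
    have hz : ∀ j, ∃ z : ℝ, Tendsto (fun s => kap (u s (x j)) / kap (n s)) 𝒰 (𝓝 z) := by
      intro j
      rcases Ultrafilter.em 𝒰 (fun s => u s (x j) = n s) with h | h
      · exact ⟨1, kl_eq h⟩
      · refine ⟨0, kl_lt hnt ?_⟩
        filter_upwards [h, hj1] with s hs hs1
        have := hs1 j
        rw [hn] at hs ⊢
        exact lt_of_le_of_ne this hs
    choose z hz using hz
    have hy : ∀ y, Tendsto (fun s => kap (u s y) / kap (n s)) 𝒰 (𝓝 (∑ j, z j * w j y)) := by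
      intro y
      have h1 : Tendsto (fun s => (kap (u s y) - ∑ j, kap (u s (x j)) * w j y) * (kap (n s))⁻¹) 𝒰
          (𝓝 (0 * 0)) := (hu y).mul (tendsto_inv_atTop_zero.comp (kl_tendsto hnt))
      have h2 : Tendsto (fun s => ∑ j, kap (u s (x j)) / kap (n s) * w j y) 𝒰
          (𝓝 (∑ j, z j * w j y)) := tendsto_finsetSum _ (fun j _ => (hz j).mul_const _)
      have h3 := h1.add h2
      rw [zero_mul, zero_add] at h3
      refine h3.congr ?_
      intro s
      rw [sub_mul, Finset.sum_mul, div_eq_mul_inv, sub_add_eq_add_sub, add_sub_assoc,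
        ← Finset.sum_sub_distrib]
      rw [Finset.sum_eq_zero, add_zero]
      intro j _
      ring
    have hind : ({y | ∀ᶠ s in (𝒰 : Filter ι), u s y = n s} : Set X).indicator (fun _ => (1 : ℝ)) =
        ∑ j, z j • w j := by
      funext y
      rw [Finset.sum_apply]
      simp only [Pi.smul_apply, smul_eq_mul]
      by_cases h : ∀ᶠ s in (𝒰 : Filter ι), u s y = n s
      · rw [Set.indicator_of_mem (by exact h)]
        exact tendsto_nhds_unique (kl_eq h) (hy y)
      · rw [Set.indicator_of_notMem (by exact h)]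
        have h' := Ultrafilter.eventually_not.2 h
        rcases Ultrafilter.em 𝒰 (fun s => u s y < n s) with h2 | h2
        · exact tendsto_nhds_unique (kl_lt hnt h2) (hy y)
        · exfalso
          have h3 : ∀ᶠ s in (𝒰 : Filter ι), n s < u s y := by
            filter_upwards [h', h2] with s hs hs'
            omega
          exact not_tendsto_nhds_of_tendsto_atTop (kl_gt hnt h3) _ (hy y)
    obtain ⟨y, hyZ, hyψ⟩ := hZ {y | ∀ᶠ s in (𝒰 : Filter ι), u s y = n s}
      ⟨x j1, by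
        show ∀ᶠ s in (𝒰 : Filter ι), u s (x j1) = n s
        rw [hn]
        exact Eventually.of_forall fun s => rfl⟩
      (by
        rw [hind]
        exact Submodule.sum_mem _ (fun j _ => Submodule.smul_mem _ _ (hw j)))
    have hyZ' : ∀ᶠ s in (𝒰 : Filter ι), u s y = n s := hyZ
    have h1 : ∀ᶠ s in (𝒰 : Filter ι), C / ψ y < kap (n s) :=
      (kl_tendsto hnt).eventually_gt_atTop _
    obtain ⟨s, hs1, hs2⟩ := (hyZ'.and h1).exists
    have h2 : ψ y * kap (u s y) ≤ ev ψ (fun y => kap (u s y)) := by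
      unfold ev Finsupp.sum
      have hmem : y ∈ ψ.support := Finsupp.mem_support_iff.2 hyψ.ne'
      exact Finset.single_le_sum (f := fun a => ψ a * kap (u s a))
        (fun a _ => mul_nonneg (hψ a) (kl_pos _).le) hmem
    have h3 := (le_abs_self _).trans (hC s)
    rw [hs1] at h2
    rw [div_lt_iff₀ hyψ] at hs2
    linarith
  choose N hN using hconst
  intro y
  rcases kl_dich 𝒰 (fun s => u s y) with h | h
  · exact h
  · exfalso
    have h1 : ∀ᶠ s in (𝒰 : Filter ι), ∀ j, u s (x j) = N j := eventually_all.2 hN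
    have h2 : Tendsto (fun s => kap (u s y)) 𝒰 (𝓝 (0 + ∑ j, kap (N j) * w j y)) := by
      refine ((hu y).add_const (∑ j, kap (N j) * w j y)).congr' ?_
      filter_upwards [h1] with s hs
      simp only [hs]
      ring
    exact not_tendsto_nhds_of_tendsto_atTop (kl_tendsto h) _ h2



end Pool.Agent.Helper47.LP
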