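import Mathlib
import Pool.Agent.Helper47.LP.Defs

set_option autoImplicit false

open Set Topology Filter

namespace Pool.Agent.Helper47.LP

noncomputable def j18944_q (i : ℕ) : ℝ := ((10 : ℝ) ^ (10 ^ (2 * i)))⁻¹

theorem j18944_q_pos (i : ℕ) : 0 < j18944_q i := by
  unfold j18944_q
  positivity

theorem j18944_q_le (i : ℕ) : j18944_q i ≤ 1 / 10 := by
  unfold j18944_q
  rw [one_div]
  apply inv_anti₀ (by norm_num)
  calc (10 : ℝ) = 10 ^ 1 := by norm_num
    _ ≤ 10 ^ (10 ^ (2 * i)) :=
      pow_le_pow_right₀ (by norm_num) (Nat.one_le_pow _ _ (by norm_num))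

theorem j18944_q_succ (i : ℕ) : j18944_q (i + 1) = j18944_q i ^ 100 := by
  unfold j18944_q
  rw [inv_pow, ← pow_mul]
  have h : 10 ^ (2 * (i + 1)) = 10 ^ (2 * i) * 100 := by
    rw [show 2 * (i + 1) = 2 * i + 2 by ring, pow_add]
    norm_num
  rw [h]

theorem j18944_TT_mul (j : ℕ) : TT j * j18944_q j ^ 5 = 1 := by
  unfold TT j18944_q
  rw [inv_pow, ← pow_mul, mul_comm 5]
  exact mul_inv_cancel₀ (by positivity)

theorem j18944_TT_pos (j : ℕ) : 0 < TT j := by
  unfold TT
  positivity

theorem j18944_q_pow (i n : ℕ) (hn : n ≠ 0) : j18944_q i ^ n ≤ j18944_q i :=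
  pow_le_of_le_one (j18944_q_pos i).le (by have := j18944_q_le i; linarith) hn

theorem j18944_q_succ_le (i : ℕ) : j18944_q (i + 1) ≤ j18944_q i * (1 / 2) := by
  rw [j18944_q_succ, show 100 = 99 + 1 by norm_num, pow_succ, mul_comm]
  apply mul_le_mul_of_nonneg_left _ (j18944_q_pos i).le
  have h1 := j18944_q_pow i 99 (by norm_num)
  have h2 := j18944_q_le i
  linarith

theorem j18944_q_add (n l : ℕ) : j18944_q (l + n) ≤ j18944_q n * (1 / 2) ^ l := by
  induction l with
  | zero => simp
  | succ l ih =>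
    have h := j18944_q_succ_le (l + n)
    rw [show l + 1 + n = l + n + 1 by ring, pow_succ]
    nlinarith [j18944_q_pos (l + n)]

theorem j18944_q_anti : Antitone j18944_q := by
  apply antitone_nat_of_succ_le
  intro n
  have h := j18944_q_succ_le n
  have h2 := j18944_q_pos n
  linarith

theorem j18944_q_summable : Summable j18944_q := by
  refine Summable.of_nonneg_of_le (fun i => (j18944_q_pos i).le)
    (fun i => (j18944_q_add 0 i)) ?_
  exact summable_geometric_two.mul_left _

theorem j18944_q_tendsto : Tendsto j18944_q atTop (𝓝 0) :=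
  j18944_q_summable.tendsto_atTop_zero

theorem j18944_summable (D : ℕ → ℝ) (C : ℝ) (hD : ∀ i, |D i| ≤ C) :
    Summable (fun i => D i * j18944_q i) := by
  refine Summable.of_norm_bounded (j18944_q_summable.mul_left C) fun i => ?_
  rw [norm_mul, Real.norm_eq_abs, Real.norm_eq_abs, abs_of_pos (j18944_q_pos i)]
  exact mul_le_mul_of_nonneg_right (hD i) (j18944_q_pos i).le

theorem j18944_tail (D : ℕ → ℝ) (C : ℝ) (hD : ∀ i, |D i| ≤ C) (n : ℕ) :
    |∑' i, D i * j18944_q i - ∑ i ∈ Finset.range n, D i * j18944_q i| ≤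
      2 * C * j18944_q n := by
  have hs := j18944_summable D C hD
  have h1 := hs.sum_add_tsum_nat_add n
  have h2 : ∑' i, D i * j18944_q i - ∑ i ∈ Finset.range n, D i * j18944_q i =
      ∑' i, D (i + n) * j18944_q (i + n) := by
    linarith
  rw [h2]
  have hC : 0 ≤ C := (abs_nonneg _).trans (hD 0)
  have h3 : HasSum (fun i : ℕ => C * j18944_q n * (1 / 2 : ℝ) ^ i) (C * j18944_q n * 2) :=
    hasSum_geometric_two.mul_left _
  have h4 := tsum_of_norm_bounded (f := fun i => D (i + n) * j18944_q (i + n)) h3 (fun i => by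
    rw [norm_mul, Real.norm_eq_abs, Real.norm_eq_abs, abs_of_pos (j18944_q_pos _), mul_assoc]
    exact mul_le_mul (hD _) (j18944_q_add n i) (j18944_q_pos _).le hC)
  rw [Real.norm_eq_abs] at h4
  linarith

theorem j18944_gam_eq (b : ℕ → Bool) :
    gam b = ∑' i, (if b i then (1 : ℝ) else 0) * j18944_q i := by
  unfold gam j18944_q
  congr 1
  ext i
  split_ifs <;> simp

theorem j18944_gam_nonneg (b : ℕ → Bool) : 0 ≤ gam b := by
  unfold gam
  apply tsum_nonneg
  intro i
  split_ifs <;> positivity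

theorem j18944_gam_le (b : ℕ → Bool) : gam b ≤ 1 := by
  rw [j18944_gam_eq]
  have h := j18944_tail (fun i => if b i then (1 : ℝ) else 0) 1 (fun i => by
    split_ifs <;> simp) 0
  have h2 := j18944_q_le 0
  have h3 := (abs_le.1 h).2
  simp only [Finset.range_zero, Finset.sum_empty] at h3
  linarith

theorem j18944_w {Y : Type} [Fintype Y] (v : Y → ℝ) (b : Y → ℕ → Bool) :
    ∑ y, v y * gam (b y) = ∑' i, (∑ y, if b y i then v y else 0) * j18944_q i := by
  have h1 : ∀ y, v y * gam (b y) = ∑' i, (if b y i then v y else 0) * j18944_q i := by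
    intro y
    rw [j18944_gam_eq, ← tsum_mul_left]
    congr 1
    ext i
    split_ifs <;> simp
  have h2 : ∀ y, Summable (fun i => (if b y i then v y else 0) * j18944_q i) := by
    intro y
    apply j18944_summable _ |v y|
    intro i
    split_ifs
    · exact le_rfl
    · simp
  simp_rw [h1, Finset.sum_mul]
  rw [Summable.tsum_finsetSum (fun y _ => h2 y)]

theorem j18944_min {Y : Type} [Fintype Y] (v : Y → ℝ) :
    ∃ m : ℝ, 0 < m ∧ ∀ s s' : Y → Bool,
      (∑ y, if s y then v y else 0) - (∑ y, if s' y then v y else 0) ≠ 0 →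
      m ≤ |(∑ y, if s y then v y else 0) - (∑ y, if s' y then v y else 0)| := by
  have h : ∀ᶠ m : ℝ in 𝓝[>] 0, ∀ p : (Y → Bool) × (Y → Bool),
      (∑ y, if p.1 y then v y else 0) - (∑ y, if p.2 y then v y else 0) ≠ 0 →
      m ≤ |(∑ y, if p.1 y then v y else 0) - (∑ y, if p.2 y then v y else 0)| := by
    rw [Filter.eventually_all]
    intro p
    by_cases hp : (∑ y, if p.1 y then v y else 0) - (∑ y, if p.2 y then v y else 0) = 0
    · exact Filter.Eventually.of_forall fun m hm => absurd hp hm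
    · have h1 := abs_pos.2 hp
      have h2 : ∀ᶠ m : ℝ in 𝓝[>] 0,
          m < |(∑ y, if p.1 y then v y else 0) - (∑ y, if p.2 y then v y else 0)| :=
        mem_nhdsWithin_of_mem_nhds (Iio_mem_nhds h1)
      exact h2.mono fun m hm _ => hm.le
  obtain ⟨m, hm, hm0⟩ := (h.and self_mem_nhdsWithin).exists
  exact ⟨m, hm0, fun s s' => hm (s, s')⟩

theorem j18944_VV {Y : Type} [Fintype Y] (v : Y → ℝ) (s s' : Y → Bool) :
    |(∑ y, if s y then v y else 0) - (∑ y, if s' y then v y else 0)| ≤ 2 * ∑ y, |v y| := by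
  have h : ∀ s : Y → Bool, |∑ y, if s y then v y else 0| ≤ ∑ y, |v y| := by
    intro s
    refine (Finset.abs_sum_le_sum_abs _ _).trans (Finset.sum_le_sum fun y _ => ?_)
    split_ifs
    · exact le_rfl
    · simp
  have h1 := abs_sub (∑ y, if s y then v y else 0) (∑ y, if s' y then v y else 0)
  have h2 := h s
  have h3 := h s'
  linarith

theorem j18944_dich (D : ℕ → ℝ) (C m : ℝ) (hD : ∀ i, |D i| ≤ C) (hm : 0 < m)
    (hDm : ∀ i, D i ≠ 0 → m ≤ |D i|) (i0 : ℕ) (h0 : ∀ i < i0, D i = 0)
    (hi0 : ∀ i ≥ i0, 4 * C * j18944_q i ≤ m) (j : ℕ) :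
    m / 2 * j18944_q j ≤ |∑' i, D i * j18944_q i| ∨
      |∑' i, D i * j18944_q i| ≤ 2 * C * j18944_q (j + 1) := by
  classical
  by_cases hz : ∀ i ≤ j, D i = 0
  · right
    have h := j18944_tail D C hD (j + 1)
    rw [Finset.sum_eq_zero (fun i hi => by
      rw [hz i (Nat.lt_succ_iff.1 (Finset.mem_range.1 hi)), zero_mul]), sub_zero] at h
    exact h
  · left
    push Not at hz
    have hex : ∃ i, D i ≠ 0 := by
      obtain ⟨i, _, hi⟩ := hz
      exact ⟨i, hi⟩
    set i := Nat.find hex with hi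
    have h1 : D i ≠ 0 := Nat.find_spec hex
    have h2 : ∀ l < i, D l = 0 := fun l hl => by
      have := Nat.find_min hex hl
      push Not at this
      exact this
    have h3 : i ≤ j := by
      obtain ⟨l, hl, hl2⟩ := hz
      exact (Nat.find_min' hex hl2).trans hl
    have h4 : i0 ≤ i := by
      by_contra hlt
      exact h1 (h0 i (not_le.1 hlt))
    have h5 := j18944_tail D C hD (i + 1)
    rw [Finset.sum_range_succ, Finset.sum_eq_zero (fun l hl => by
      rw [h2 l (Finset.mem_range.1 hl), zero_mul]), zero_add] at h5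
    have h6 := hDm i h1
    have h7 := hi0 i h4
    have h8 : j18944_q (i + 1) ≤ j18944_q i * j18944_q i := by
      rw [j18944_q_succ]
      have := pow_le_pow_of_le_one (j18944_q_pos i).le
        (by have := j18944_q_le i; linarith) (show 2 ≤ 100 by norm_num)
      calc j18944_q i ^ 100 ≤ j18944_q i ^ 2 := this
        _ = j18944_q i * j18944_q i := by ring
    have h9 : |D i * j18944_q i| = |D i| * j18944_q i := by
      rw [abs_mul, abs_of_pos (j18944_q_pos i)]
    have h10 : |D i * j18944_q i| ≤ |∑' i, D i * j18944_q i| +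
        |∑' i, D i * j18944_q i - D i * j18944_q i| := by
      have := abs_sub (∑' i, D i * j18944_q i)
        (∑' i, D i * j18944_q i - D i * j18944_q i)
      rwa [sub_sub_cancel] at this
    have hC : 0 ≤ C := (abs_nonneg _).trans (hD 0)
    have hq := j18944_q_pos i
    have h11 : 2 * C * j18944_q (i + 1) ≤ m / 2 * j18944_q i := by
      have : 2 * C * j18944_q (i + 1) ≤ 2 * C * (j18944_q i * j18944_q i) :=
        mul_le_mul_of_nonneg_left h8 (by positivity)
      nlinarith
    have h12 : m * j18944_q i ≤ |D i| * j18944_q i := mul_le_mul_of_nonneg_right h6 hq.le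
    have h13 := j18944_q_anti h3
    have h14 : m / 2 * j18944_q j ≤ m / 2 * j18944_q i :=
      mul_le_mul_of_nonneg_left h13 (by positivity)
    linarith

theorem stepC {Y : Type} [Fintype Y] (ψ v : Y → ℝ) (M δ : ℝ) (hδ : 0 < δ) :
    ∀ᶠ j in atTop, ∀ b : Y → ℕ → Bool, |∑ y, (ψ y + TT j * v y) * gam (b y)| ≤ M →
      |TT j * ∑ y, v y * gam (b y)| < δ := by
  classical
  set M1 : ℝ := |M| + ∑ y, |ψ y| with hM1
  set C : ℝ := 2 * ∑ y, |v y| with hC
  have hC0 : 0 ≤ C := by positivity
  have hM10 : 0 ≤ M1 := by positivity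
  obtain ⟨m, hm, hmin⟩ := j18944_min v
  have hev : ∀ A c : ℝ, 0 < c → ∀ᶠ i in atTop, A * j18944_q i < c := by
    intro A c hc
    have h1 : Tendsto (fun i => A * j18944_q i) atTop (𝓝 (A * 0)) :=
      j18944_q_tendsto.const_mul A
    rw [mul_zero] at h1
    exact h1.eventually (Iio_mem_nhds hc)
  obtain ⟨i0, hi0⟩ := Filter.eventually_atTop.1 (hev (4 * C) m hm)
  -- reduce to bounded |TT j * w|
  have hbd : ∀ j, ∀ b : Y → ℕ → Bool, |∑ y, (ψ y + TT j * v y) * gam (b y)| ≤ M →
      |TT j * ∑ y, v y * gam (b y)| ≤ M1 := by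
    intro j b hb
    have h1 : ∑ y, (ψ y + TT j * v y) * gam (b y) =
        ∑ y, ψ y * gam (b y) + TT j * ∑ y, v y * gam (b y) := by
      rw [Finset.mul_sum, ← Finset.sum_add_distrib]
      exact Finset.sum_congr rfl fun y _ => by ring
    have h2 : |∑ y, ψ y * gam (b y)| ≤ ∑ y, |ψ y| := by
      refine (Finset.abs_sum_le_sum_abs _ _).trans (Finset.sum_le_sum fun y _ => ?_)
      rw [abs_mul, abs_of_nonneg (j18944_gam_nonneg _)]
      exact mul_le_of_le_one_right (abs_nonneg _) (j18944_gam_le _)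
    have h3 := abs_sub (∑ y, (ψ y + TT j * v y) * gam (b y)) (∑ y, ψ y * gam (b y))
    rw [h1, add_sub_cancel_left] at h3
    rw [h1] at hb
    have h4 := le_abs_self M
    rw [hM1]
    linarith
  -- pattern by pattern
  have key : ∀ p : Fin i0 → Y → Bool, ∀ᶠ j in atTop, ∀ b : Y → ℕ → Bool,
      (∀ (i : Fin i0) y, b y i = p i y) → |TT j * ∑ y, v y * gam (b y)| ≤ M1 →
      |TT j * ∑ y, v y * gam (b y)| < δ := by
    intro p
    by_contra hcon
    have hfr : ∃ᶠ j in atTop, ∃ b : Y → ℕ → Bool,
      (∀ (i : Fin i0) y, b y i = p i y) ∧ |TT j * ∑ y, v y * gam (b y)| ≤ M1 ∧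
      δ ≤ |TT j * ∑ y, v y * gam (b y)| := by
      intro h
      apply hcon
      refine h.mono fun j hj b hb1 hb2 => ?_
      by_contra h3
      exact hj ⟨b, hb1, hb2, not_lt.1 h3⟩
    obtain ⟨j, ⟨b, hbp, hbM, hbδ⟩, hj1, hj2⟩ :=
      (hfr.and_eventually ((hev (2 * M1) (m / 2) (by positivity)).and
        (hev (2 * C) (δ / 2) (by positivity)))).exists
    obtain ⟨j', ⟨b', hbp', hbM', hbδ'⟩, hj1', hj2'⟩ :=
      (hfr.and_eventually ((hev M1 (δ / 2 / TT j)
        (div_pos (by positivity) (j18944_TT_pos j))).and (Filter.eventually_ge_atTop j))).exists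
    set w := ∑ y, v y * gam (b y) with hw
    set w' := ∑ y, v y * gam (b' y) with hw'
    have hT := j18944_TT_pos j
    have hT' := j18944_TT_pos j'
    have hTm := j18944_TT_mul j
    have hTm' := j18944_TT_mul j'
    have hq := j18944_q_pos j
    have hq' := j18944_q_pos j'
    rw [abs_mul, abs_of_pos hT] at hbM hbδ
    rw [abs_mul, abs_of_pos hT'] at hbM' hbδ'
    have hwb : |w| ≤ M1 * j18944_q j ^ 5 := by
      have h1 : |w| = TT j * |w| * j18944_q j ^ 5 := by
        calc |w| = |w| * (TT j * j18944_q j ^ 5) := by rw [hTm, mul_one]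
          _ = _ := by ring
      rw [h1]
      exact mul_le_mul_of_nonneg_right hbM (by positivity)
    have hwb' : |w'| ≤ M1 * j18944_q j' ^ 5 := by
      have h1 : |w'| = TT j' * |w'| * j18944_q j' ^ 5 := by
        calc |w'| = |w'| * (TT j' * j18944_q j' ^ 5) := by rw [hTm', mul_one]
          _ = _ := by ring
      rw [h1]
      exact mul_le_mul_of_nonneg_right hbM' (by positivity)
    have hqq : j18944_q j' ≤ j18944_q j := j18944_q_anti hj2'
    have hqq5 : j18944_q j' ^ 5 ≤ j18944_q j ^ 5 := pow_le_pow_left₀ hq'.le hqq 5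
    set D : ℕ → ℝ := fun i => (∑ y, if b y i then v y else 0) -
      (∑ y, if b' y i then v y else 0) with hD
    have hDC : ∀ i, |D i| ≤ C := fun i => j18944_VV v (fun y => b y i) (fun y => b' y i)
    have hDm : ∀ i, D i ≠ 0 → m ≤ |D i| := fun i => hmin (fun y => b y i) (fun y => b' y i)
    have hD0 : ∀ i < i0, D i = 0 := by
      intro i hi
      have h1 : ∀ y, b y i = b' y i := fun y => by
        rw [hbp ⟨i, hi⟩ y, hbp' ⟨i, hi⟩ y]
      simp only [hD, h1, sub_self]
    have hww : w - w' = ∑' i, D i * j18944_q i := by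
      rw [hw, hw', j18944_w, j18944_w, ← Summable.tsum_sub]
      · congr 1
        ext i
        rw [hD]
        ring
      · refine j18944_summable _ (∑ y, |v y|) fun i => ?_
        refine (Finset.abs_sum_le_sum_abs _ _).trans (Finset.sum_le_sum fun y _ => ?_)
        split_ifs
        · exact le_rfl
        · simp
      · refine j18944_summable _ (∑ y, |v y|) fun i => ?_
        refine (Finset.abs_sum_le_sum_abs _ _).trans (Finset.sum_le_sum fun y _ => ?_)
        split_ifs
        · exact le_rfl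
        · simp
    have hdich := j18944_dich D C m hDC hm hDm i0 hD0 (fun i hi => (hi0 i hi).le) j
    rw [← hww] at hdich
    have hsub : |w - w'| ≤ |w| + |w'| := abs_sub w w'
    have hq52 : j18944_q j ^ 5 ≤ j18944_q j * j18944_q j := by
      have h1 := pow_le_pow_of_le_one hq.le
        (by have := j18944_q_le j; linarith) (show 2 ≤ 5 by norm_num)
      calc j18944_q j ^ 5 ≤ j18944_q j ^ 2 := h1
        _ = j18944_q j * j18944_q j := by ring
    rcases hdich with h | h
    · have h1 : |w| + |w'| ≤ 2 * M1 * (j18944_q j * j18944_q j) := by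
        have h2 : M1 * j18944_q j' ^ 5 ≤ M1 * (j18944_q j * j18944_q j) :=
          mul_le_mul_of_nonneg_left (hqq5.trans hq52) hM10
        have h3 : M1 * j18944_q j ^ 5 ≤ M1 * (j18944_q j * j18944_q j) :=
          mul_le_mul_of_nonneg_left hq52 hM10
        linarith
      have h2 : 2 * M1 * (j18944_q j * j18944_q j) < m / 2 * j18944_q j := by
        have := mul_lt_mul_of_pos_right hj1 hq
        linarith
      linarith
    · have h1 : |w| ≤ |w - w'| + |w'| := by
        have := abs_add_le (w - w') w'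
        rwa [sub_add_cancel] at this
      have h2 : TT j * |w'| < δ / 2 := by
        have h3 : |w'| ≤ M1 * j18944_q j' :=
          hwb'.trans (mul_le_mul_of_nonneg_left (j18944_q_pow j' 5 (by norm_num)) hM10)
        have h4 : |w'| < δ / 2 / TT j := h3.trans_lt hj1'
        rw [lt_div_iff₀ hT] at h4
        linarith
      have h3 : TT j * (2 * C * j18944_q (j + 1)) ≤ 2 * C * j18944_q j := by
        rw [j18944_q_succ]
        have h5 : TT j * (2 * C * j18944_q j ^ 100) =
            2 * C * (TT j * j18944_q j ^ 5) * j18944_q j ^ 95 := by ring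
        rw [h5, hTm, mul_one]
        exact mul_le_mul_of_nonneg_left (j18944_q_pow j 95 (by norm_num)) (by positivity)
      have h4 : TT j * |w - w'| ≤ TT j * (2 * C * j18944_q (j + 1)) :=
        mul_le_mul_of_nonneg_left h hT.le
      have h5 : TT j * |w| ≤ TT j * (|w - w'| + |w'|) := mul_le_mul_of_nonneg_left h1 hT.le
      rw [mul_add] at h5
      linarith
  have key2 := Filter.eventually_all.2 key
  refine key2.mono fun j hj b hb => ?_
  exact hj (fun i y => b y i) b (fun _ _ => rfl) (hbd j b hb)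


end Pool.Agent.Helper47.LP
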