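import Mathlib
import Pool.Agent.Helper47.LP.Defs

set_option autoImplicit false

open Set Topology Filter

namespace Pool.Agent.Helper47.LP

noncomputable def h208Q (j : ℕ) : ℝ := 10 ^ (10 ^ (2 * j))

theorem h208Q_one (j : ℕ) : 1 ≤ h208Q j := one_le_pow₀ (by norm_num)

theorem h208Q_mono : Monotone h208Q := by
  intro a b hab
  unfold h208Q
  exact pow_le_pow_right₀ (by norm_num) (Nat.pow_le_pow_right (by norm_num) (by omega))

theorem h208_kap (j : ℕ) : kap j = h208Q j ^ 10 := by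
  unfold kap h208Q
  rw [← pow_mul, pow_succ]

theorem h208_TT (j : ℕ) : TT j = h208Q j ^ 5 := by
  unfold TT h208Q
  rw [← pow_mul, mul_comm]

theorem h208_kap_le {n N : ℕ} (h : n < N) : kap n ≤ h208Q N := by
  unfold kap h208Q
  exact pow_le_pow_right₀ (by norm_num) (Nat.pow_le_pow_right (by norm_num) (by omega))

theorem h208_kap_nonneg (n : ℕ) : 0 ≤ kap n := by
  unfold kap; positivity

theorem h208Q_tendsto : Tendsto h208Q atTop atTop := by
  have h1 : Tendsto (fun j : ℕ => (10 : ℝ) ^ j) atTop atTop :=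
    tendsto_pow_atTop_atTop_of_one_lt (by norm_num)
  refine tendsto_atTop_mono (fun j => ?_) h1
  unfold h208Q
  apply pow_le_pow_right₀ (by norm_num)
  calc j ≤ 2 * j := by omega
    _ ≤ 10 ^ (2 * j) := (Nat.lt_pow_self (by norm_num)).le

theorem h208_exact {Y : Type} [Fintype Y] [DecidableEq Y] (w : Y → ℝ) (n : Y → ℕ) (L : ℕ)
    (h : ∀ m, L ≤ m → ∑ y ∈ Finset.univ.filter (fun y => n y = m), w y = 0) :
    ∑ y, w y * kap (n y) =
      ∑ m ∈ Finset.range L, kap m * ∑ y ∈ Finset.univ.filter (fun y => n y = m), w y := by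
  set L' := max L ((Finset.univ.sup n) + 1) with hL'
  have h1 : ∑ y, w y * kap (n y) =
      ∑ m ∈ Finset.range L', kap m * ∑ y ∈ Finset.univ.filter (fun y => n y = m), w y := by
    rw [← Finset.sum_fiberwise_of_maps_to (s := Finset.univ) (t := Finset.range L') (g := n)]
    · refine Finset.sum_congr rfl fun m _ => ?_
      rw [Finset.mul_sum]
      refine Finset.sum_congr rfl fun y hy => ?_
      rw [(Finset.mem_filter.1 hy).2]
      ring
    · intro y _
      rw [Finset.mem_range]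
      have : n y ≤ Finset.univ.sup n := Finset.le_sup (Finset.mem_univ y)
      omega
  rw [h1]
  symm
  apply Finset.sum_subset
  · intro m hm
    rw [Finset.mem_range] at hm ⊢
    omega
  · intro m _ hm
    rw [Finset.mem_range, not_lt] at hm
    rw [h m hm, mul_zero]

theorem h208_basic {Y : Type} [Fintype Y] [DecidableEq Y] (w : Y → ℝ) (n : Y → ℕ) (j : ℕ)
    (h : ∀ m, j ≤ m → ∑ y ∈ Finset.univ.filter (fun y => n y = m), w y = 0) :
    |∑ y, w y * kap (n y)| ≤ (∑ y, |w y|) * h208Q j := by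
  have h1 : ∑ y, w y * kap (n y) = ∑ y, (if n y < j then w y else 0) * kap (n y) := by
    rw [h208_exact w n j h, h208_exact (fun y => if n y < j then w y else 0) n j]
    · refine Finset.sum_congr rfl fun m hm => ?_
      congr 1
      refine Finset.sum_congr rfl fun y hy => ?_
      rw [(Finset.mem_filter.1 hy).2, if_pos (Finset.mem_range.1 hm)]
    · intro m hm
      refine Finset.sum_eq_zero fun y hy => ?_
      rw [(Finset.mem_filter.1 hy).2, if_neg (by omega)]
  rw [h1, Finset.sum_mul]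
  refine (Finset.abs_sum_le_sum_abs _ _).trans (Finset.sum_le_sum fun y _ => ?_)
  split_ifs with hy
  · rw [abs_mul, abs_of_nonneg (h208_kap_nonneg _)]
    exact mul_le_mul_of_nonneg_left (h208_kap_le hy) (abs_nonneg _)
  · rw [zero_mul, abs_zero]
    have := h208Q_one j
    positivity

theorem h208_decomp {Y : Type} [Fintype Y] [DecidableEq Y] (w : Y → ℝ) (n : Y → ℕ) (N : ℕ)
    (h : ∀ m, N < m → ∑ y ∈ Finset.univ.filter (fun y => n y = m), w y = 0) :
    kap N * |∑ y ∈ Finset.univ.filter (fun y => n y = N), w y| - (∑ y, |w y|) * h208Q N ≤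
      |∑ y, w y * kap (n y)| := by
  have h1 := h208_basic (fun y => if n y = N then 0 else w y) n N (by
    intro m hm
    rcases eq_or_lt_of_le hm with h2 | h2
    · refine Finset.sum_eq_zero fun y hy => ?_
      rw [if_pos ((Finset.mem_filter.1 hy).2.trans h2.symm)]
    · rw [← h m h2]
      refine Finset.sum_congr rfl fun y hy => ?_
      rw [if_neg]
      rw [(Finset.mem_filter.1 hy).2]
      omega)
  have h2 : ∑ y, w y * kap (n y) =
      kap N * (∑ y ∈ Finset.univ.filter (fun y => n y = N), w y) +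
        ∑ y, (if n y = N then 0 else w y) * kap (n y) := by
    rw [Finset.mul_sum, Finset.sum_filter, ← Finset.sum_add_distrib]
    refine Finset.sum_congr rfl fun y _ => ?_
    split_ifs with hy
    · rw [hy]; ring
    · ring
  have h3 : ∑ y, |if n y = N then 0 else w y| ≤ ∑ y, |w y| := by
    refine Finset.sum_le_sum fun y _ => ?_
    split_ifs
    · rw [abs_zero]; exact abs_nonneg _
    · exact le_rfl
  have h4 : (∑ y, |if n y = N then 0 else w y|) * h208Q N ≤ (∑ y, |w y|) * h208Q N :=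
    mul_le_mul_of_nonneg_right h3 (by have := h208Q_one N; linarith)
  have h5 : |kap N * (∑ y ∈ Finset.univ.filter (fun y => n y = N), w y)| =
      kap N * |∑ y ∈ Finset.univ.filter (fun y => n y = N), w y| := by
    rw [abs_mul, abs_of_nonneg (h208_kap_nonneg N)]
  rw [h2, ← h5]
  have h6 := abs_sub_abs_le_abs_sub (kap N * (∑ y ∈ Finset.univ.filter (fun y => n y = N), w y))
    (-∑ y, (if n y = N then 0 else w y) * kap (n y))
  rw [sub_neg_eq_add, abs_neg] at h6
  linarith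

theorem h208_min {ι : Type} [Finite ι] (f : ι → ℝ) :
    ∃ μ : ℝ, 0 < μ ∧ ∀ i, f i ≠ 0 → μ ≤ |f i| := by
  by_cases h : ∃ i, f i ≠ 0
  · obtain ⟨m, hm, hmin⟩ := Set.exists_min_image {i | f i ≠ 0} (fun i => |f i|) (Set.toFinite _) h
    exact ⟨|f m|, abs_pos.2 hm, fun i hi => hmin i hi⟩
  · push Not at h
    exact ⟨1, one_pos, fun i hi => absurd (h i) hi⟩

theorem h208_big (a B K q : ℝ) (hK : 0 ≤ K) (hq1 : 1 ≤ q) (hq : B + K + 1 ≤ a * q)
    (ha : 0 < a) (p r : ℕ) (hpr : r < p) : K + 1 ≤ a * q ^ p - B * q ^ r := by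
  have h1 : q ^ r * q ≤ q ^ p := by
    rw [← pow_succ]
    exact pow_le_pow_right₀ hq1 hpr
  have h2 : 1 ≤ q ^ r := one_le_pow₀ hq1
  calc K + 1 ≤ q ^ r * (K + 1) := by nlinarith
    _ ≤ q ^ r * (a * q - B) := by
        apply mul_le_mul_of_nonneg_left _ (by positivity)
        linarith
    _ = a * (q ^ r * q) - B * q ^ r := by ring
    _ ≤ a * q ^ p - B * q ^ r := by
        have := mul_le_mul_of_nonneg_left h1 ha.le
        linarith

theorem h208_top {Y : Type} [Fintype Y] [DecidableEq Y] (n : Y → ℕ) (P : ℕ → Prop)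
    (hP : ∀ m, P m → ∃ y, n y = m) (m0 : ℕ) (hm0 : P m0) :
    ∃ N, m0 ≤ N ∧ P N ∧ ∀ m, N < m → ¬ P m := by
  have hfin : {m | P m}.Finite := by
    refine (Set.finite_range n).subset ?_
    intro m hm
    exact hP m hm
  obtain ⟨N, hN, hmax⟩ := Set.exists_max_image {m | P m} id hfin ⟨m0, hm0⟩
  exact ⟨N, hmax m0 hm0, hN, fun m hm hPm => absurd (hmax m hPm) (not_le.2 hm)⟩

theorem h208_discrete {Y : Type} [Fintype Y] [DecidableEq Y] (v : Y → ℝ) :
    ∃ μ : ℝ, 0 < μ ∧ ∀ n : Y → ℕ, ∑ y, v y * kap (n y) ≠ 0 → μ ≤ |∑ y, v y * kap (n y)| := by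
  obtain ⟨m0, hm0, hmin⟩ := h208_min (fun A : Finset Y => ∑ y ∈ A, v y)
  obtain ⟨N0, hN0⟩ := ((h208Q_tendsto.eventually_ge_atTop
    (((∑ y, |v y|) + 0 + 1) / m0)).and (eventually_ge_atTop 0)).exists_forall_of_atTop
  obtain ⟨μ1, hμ1, hmin1⟩ := h208_min (fun A : Fin N0 → Finset Y =>
    ∑ m : Fin N0, kap m * ∑ y ∈ A m, v y)
  refine ⟨min μ1 1, lt_min hμ1 one_pos, fun n hn => ?_⟩
  by_cases hex : ∃ m, N0 ≤ m ∧ ∑ y ∈ Finset.univ.filter (fun y => n y = m), v y ≠ 0
  · obtain ⟨m, hm, hmv⟩ := hex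
    obtain ⟨N, hmN, hN, htop⟩ := h208_top n
      (fun m => ∑ y ∈ Finset.univ.filter (fun y => n y = m), v y ≠ 0) (by
        intro m hm
        obtain ⟨y, hy, -⟩ := Finset.exists_ne_zero_of_sum_ne_zero hm
        exact ⟨y, (Finset.mem_filter.1 hy).2⟩) m hmv
    have h1 := h208_decomp v n N (fun m hm => not_not.1 (htop m hm))
    have h2 := hmin _ hN
    have h3 := (hN0 N (hm.trans hmN)).1
    rw [div_le_iff₀ hm0] at h3
    have h4 := h208_big m0 (∑ y, |v y|) 0 (h208Q N) le_rfl (h208Q_one N)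
      (by linarith) hm0 10 1 (by norm_num)
    rw [pow_one] at h4
    refine (min_le_right _ _).trans ?_
    refine le_trans ?_ h1
    rw [h208_kap]
    have h5 : h208Q N ^ 10 * m0 ≤ h208Q N ^ 10 *
        |∑ y ∈ Finset.univ.filter (fun y => n y = N), v y| :=
      mul_le_mul_of_nonneg_left h2 (by have := h208Q_one N; positivity)
    linarith
  · push Not at hex
    refine (min_le_left _ _).trans ?_
    have h1 := h208_exact v n N0 hex
    rw [Finset.sum_range] at h1
    rw [h1] at hn ⊢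
    exact hmin1 (fun m => Finset.univ.filter (fun y => n y = (m : ℕ))) hn

theorem stepK {Y : Type} [Fintype Y] (ψ v : Y → ℝ) (M : ℝ) :
    ∀ᶠ j in atTop, ∀ n : Y → ℕ, |∑ y, (ψ y + TT j * v y) * kap (n y)| ≤ M →
      ∑ y, v y * kap (n y) = 0 := by
  classical
  set Aψ : ℝ := ∑ y, |ψ y| with hAψ
  set Av : ℝ := ∑ y, |v y| with hAv
  have hAψ0 : 0 ≤ Aψ := Finset.sum_nonneg fun y _ => abs_nonneg _
  have hAv0 : 0 ≤ Av := Finset.sum_nonneg fun y _ => abs_nonneg _
  obtain ⟨μψ, hμψ, hminψ⟩ := h208_min (fun A : Finset Y => ∑ y ∈ A, ψ y)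
  obtain ⟨μv, hμv, hminv⟩ := h208_min (fun A : Finset Y => ∑ y ∈ A, v y)
  obtain ⟨μ', hμ', hdisc⟩ := h208_discrete v
  set μ : ℝ := min μψ 1 with hμdef
  have hμ : 0 < μ := lt_min hμψ one_pos
  have hM : M ≤ |M| := le_abs_self M
  have hM0 : 0 ≤ |M| := abs_nonneg M
  obtain ⟨j0, hj0⟩ := (((h208Q_tendsto.eventually_ge_atTop
    (((Aψ + Av) + |M| + 1) / μ)).and (h208Q_tendsto.eventually_ge_atTop
    ((Aψ + |M| + 1) / μ'))).and (h208Q_tendsto.eventually_ge_atTop
    ((Aψ + 0 + 1) / μv))).exists_forall_of_atTop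
  filter_upwards [eventually_ge_atTop j0] with j hj
  intro n hn
  by_contra hne
  have hQ1 := h208Q_one j
  -- bound (A)
  have hA : ∀ A : Finset Y, (∑ y ∈ A, ψ y ≠ 0 ∨ ∑ y ∈ A, v y ≠ 0) →
      μ ≤ |∑ y ∈ A, (ψ y + TT j * v y)| := by
    intro A hA
    rw [Finset.sum_add_distrib, ← Finset.mul_sum]
    by_cases hv : ∑ y ∈ A, v y = 0
    · rw [hv, mul_zero, add_zero]
      have hψ : ∑ y ∈ A, ψ y ≠ 0 := by
        rcases hA with hA | hA
        · exact hA
        · exact absurd hv hA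
      exact (min_le_left _ _).trans (hminψ A hψ)
    · have h1 := hminv A hv
      have h2 := (hj0 j hj).2
      rw [div_le_iff₀ hμv] at h2
      have h3 := h208_big μv Aψ 0 (h208Q j) le_rfl hQ1 (by linarith) hμv 5 0 (by norm_num)
      rw [pow_zero, mul_one] at h3
      have h4 : |∑ y ∈ A, ψ y| ≤ Aψ := by
        refine (Finset.abs_sum_le_sum_abs _ _).trans ?_
        exact Finset.sum_le_sum_of_subset_of_nonneg (Finset.subset_univ _)
          (fun y _ _ => abs_nonneg _)
      have h5 : |TT j * ∑ y ∈ A, v y| = h208Q j ^ 5 * |∑ y ∈ A, v y| := by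
        rw [abs_mul, h208_TT, abs_of_nonneg (by positivity)]
      have h6 : h208Q j ^ 5 * μv ≤ h208Q j ^ 5 * |∑ y ∈ A, v y| :=
        mul_le_mul_of_nonneg_left h1 (by positivity)
      have h7 := abs_sub_abs_le_abs_sub (TT j * ∑ y ∈ A, v y) (-∑ y ∈ A, ψ y)
      rw [abs_neg, sub_neg_eq_add, add_comm] at h7
      have h8 : μ ≤ 1 := min_le_right _ _
      have h9 : |∑ y ∈ A, ψ y + TT j * ∑ y ∈ A, v y| = |TT j * ∑ y ∈ A, v y - -∑ y ∈ A, ψ y| := by
        rw [sub_neg_eq_add, add_comm]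
      have h10 := abs_sub_abs_le_abs_sub (TT j * ∑ y ∈ A, v y) (-∑ y ∈ A, ψ y)
      rw [abs_neg] at h10
      rw [h9]
      linarith
  by_cases hex : ∃ m, j ≤ m ∧ (∑ y ∈ Finset.univ.filter (fun y => n y = m), ψ y ≠ 0 ∨
      ∑ y ∈ Finset.univ.filter (fun y => n y = m), v y ≠ 0)
  · obtain ⟨m, hm, hmv⟩ := hex
    obtain ⟨N, hmN, hN, htop⟩ := h208_top n
      (fun m => ∑ y ∈ Finset.univ.filter (fun y => n y = m), ψ y ≠ 0 ∨
        ∑ y ∈ Finset.univ.filter (fun y => n y = m), v y ≠ 0) (by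
        intro m hm
        rcases hm with hm | hm
        · obtain ⟨y, hy, -⟩ := Finset.exists_ne_zero_of_sum_ne_zero hm
          exact ⟨y, (Finset.mem_filter.1 hy).2⟩
        · obtain ⟨y, hy, -⟩ := Finset.exists_ne_zero_of_sum_ne_zero hm
          exact ⟨y, (Finset.mem_filter.1 hy).2⟩) m hmv
    have h1 := h208_decomp (fun y => ψ y + TT j * v y) n N (by
      intro m hm
      have h2 := htop m hm
      rw [not_or, not_not, not_not] at h2
      show ∑ y ∈ Finset.univ.filter (fun y => n y = m), (ψ y + TT j * v y) = 0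
      rw [Finset.sum_add_distrib, ← Finset.mul_sum, h2.1, h2.2, mul_zero, add_zero])
    have h2 := hA _ hN
    have hjN : j ≤ N := hm.trans hmN
    have h3 := (hj0 N (hj.trans hjN)).1.1
    rw [div_le_iff₀ hμ] at h3
    have h4 := h208_big μ (Aψ + Av) |M| (h208Q N) hM0 (h208Q_one N) (by linarith) hμ 10 6
      (by norm_num)
    have hQN := h208Q_one N
    have h5 : ∑ y, |ψ y + TT j * v y| ≤ (Aψ + Av) * h208Q N ^ 5 := by
      have hq5 : (1 : ℝ) ≤ h208Q N ^ 5 := one_le_pow₀ hQN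
      have hTT : TT j ≤ h208Q N ^ 5 := by
        rw [h208_TT]
        exact pow_le_pow_left₀ (by linarith) (h208Q_mono hjN) 5
      have hTT0 : 0 ≤ TT j := by rw [h208_TT]; positivity
      rw [hAψ, hAv, ← Finset.sum_add_distrib, Finset.sum_mul]
      refine Finset.sum_le_sum fun y _ => ?_
      calc |ψ y + TT j * v y| ≤ |ψ y| + |TT j * v y| := abs_add_le _ _
        _ = |ψ y| * 1 + TT j * |v y| := by rw [abs_mul, abs_of_nonneg hTT0, mul_one]
        _ ≤ |ψ y| * h208Q N ^ 5 + h208Q N ^ 5 * |v y| := by gcongr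
        _ = (|ψ y| + |v y|) * h208Q N ^ 5 := by ring
    have h6 : (∑ y, |ψ y + TT j * v y|) * h208Q N ≤ (Aψ + Av) * h208Q N ^ 6 := by
      calc (∑ y, |ψ y + TT j * v y|) * h208Q N ≤ (Aψ + Av) * h208Q N ^ 5 * h208Q N :=
            mul_le_mul_of_nonneg_right h5 (by linarith)
        _ = (Aψ + Av) * h208Q N ^ 6 := by ring
    have h7 : h208Q N ^ 10 * μ ≤ kap N *
        |∑ y ∈ Finset.univ.filter (fun y => n y = N), (ψ y + TT j * v y)| := by
      rw [h208_kap]
      exact mul_le_mul_of_nonneg_left h2 (by positivity)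
    linarith
  · push Not at hex
    have h1 := h208_basic ψ n j (fun m hm => (hex m hm).1)
    have h2 : ∑ y, (ψ y + TT j * v y) * kap (n y) =
        ∑ y, ψ y * kap (n y) + TT j * ∑ y, v y * kap (n y) := by
      rw [Finset.mul_sum, ← Finset.sum_add_distrib]
      exact Finset.sum_congr rfl fun y _ => by ring
    have h3 := hdisc n hne
    have h4 := (hj0 j hj).1.2
    rw [div_le_iff₀ hμ'] at h4
    have h5 := h208_big μ' Aψ |M| (h208Q j) hM0 hQ1 (by linarith) hμ' 5 1 (by norm_num)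
    rw [pow_one] at h5
    rw [h2] at hn
    have h6 : |TT j * ∑ y, v y * kap (n y)| = h208Q j ^ 5 * |∑ y, v y * kap (n y)| := by
      rw [abs_mul, h208_TT, abs_of_nonneg (by positivity)]
    have h7 : h208Q j ^ 5 * μ' ≤ h208Q j ^ 5 * |∑ y, v y * kap (n y)| :=
      mul_le_mul_of_nonneg_left h3 (by positivity)
    have h8 : |TT j * ∑ y, v y * kap (n y)| ≤
        |∑ y, ψ y * kap (n y) + TT j * ∑ y, v y * kap (n y)| + |∑ y, ψ y * kap (n y)| := by
      have := abs_sub (∑ y, ψ y * kap (n y) + TT j * ∑ y, v y * kap (n y)) (∑ y, ψ y * kap (n y))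
      rwa [add_sub_cancel_left] at this
    linarith



end Pool.Agent.Helper47.LP
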