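import Mathlib
import Pool.Agent.Helper47.LP.K
import Pool.Agent.Helper47.LP.C

set_option autoImplicit false

open Set Topology Filter

namespace Pool.Agent.Helper47.LP

theorem stepZ_TT : Tendsto TT atTop atTop := by
  have h1 : Tendsto (fun j : ℕ => 5 * 10 ^ (2 * j)) atTop atTop := by
    apply tendsto_atTop_mono (f := fun j => j) _ tendsto_id
    intro j
    have h1 : j < 10 ^ j := Nat.lt_pow_self (by norm_num)
    have h2 : 10 ^ j ≤ 10 ^ (2 * j) := Nat.pow_le_pow_right (by norm_num) (by omega)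
    show j ≤ _
    omega
  exact (tendsto_pow_atTop_atTop_of_one_lt (by norm_num : (1:ℝ) < 10)).comp h1

theorem stepZ_pos (j : ℕ) : 0 < TT j := by
  unfold TT
  positivity

theorem stepZ {Y : Type} [Fintype Y] (ψ v : Y → ℝ) (M : ℝ) :
    ∀ᶠ j in atTop, ∀ z : Y → Bool, |∑ y, (ψ y + TT j * v y) * (if z y then 1 else 0)| ≤ M →
      ∑ y, v y * (if z y then (1 : ℝ) else 0) = 0 := by
  rw [Filter.eventually_all]
  intro z
  by_cases hS : ∑ y, v y * (if z y then (1 : ℝ) else 0) = 0
  · exact Eventually.of_forall fun j _ => hS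
  · have hS' : 0 < |∑ y, v y * (if z y then (1 : ℝ) else 0)| := abs_pos.mpr hS
    have h2 : ∀ᶠ j in atTop, (M + ∑ y, |ψ y|) / |∑ y, v y * (if z y then (1 : ℝ) else 0)| < TT j :=
      stepZ_TT.eventually_gt_atTop _
    filter_upwards [h2] with j hj habs
    exfalso
    rw [div_lt_iff₀ hS'] at hj
    have e : ∑ y, (ψ y + TT j * v y) * (if z y then (1:ℝ) else 0)
        = ∑ y, ψ y * (if z y then (1:ℝ) else 0)
          + TT j * ∑ y, v y * (if z y then (1 : ℝ) else 0) := by
      rw [Finset.mul_sum, ← Finset.sum_add_distrib]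
      exact Finset.sum_congr rfl fun y _ => by ring
    have h3 : |∑ y, ψ y * (if z y then (1:ℝ) else 0)| ≤ ∑ y, |ψ y| := by
      refine (Finset.abs_sum_le_sum_abs _ _).trans (Finset.sum_le_sum fun y _ => ?_)
      split_ifs <;> simp
    rw [e] at habs
    have h4 : |TT j * ∑ y, v y * (if z y then (1 : ℝ) else 0)|
        = TT j * |∑ y, v y * (if z y then (1 : ℝ) else 0)| := by
      rw [abs_mul, abs_of_pos (stepZ_pos j)]
    generalize (∑ y, ψ y * (if z y then (1:ℝ) else 0)) = A at *
    generalize (∑ y, v y * (if z y then (1 : ℝ) else 0)) = B at *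
    have h5 : |TT j * B| ≤ |A + TT j * B| + |A| := by
      have := abs_sub (A + TT j * B) A
      simpa using this
    linarith

theorem lemF {X : Type} (k : ℕ) (a : ℕ → ℝ) (H : Finset (X →₀ ℝ)) :
    ∀ (ψ : X →₀ ℝ) (ε ε' δ : ℝ), ε < ε' → 0 < δ →
      ∃ h ∈ Submodule.span ℝ (H : Set (X →₀ ℝ)), ∀ f : X → AA,
        (∀ i < k, |ev (ψ + h) (fun x => tau i (f x)) - a i| < ε) →
        ∀ i < k, |ev ψ (fun x => tau i (f x)) - a i| < ε' ∧
          ∀ v ∈ H, |ev v (fun x => tau i (f x))| < δ := by
  classical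
  induction H using Finset.induction_on with
  | empty =>
    intro ψ ε ε' δ hε hδ
    refine ⟨0, by simp, fun f hf i hi => ⟨?_, by simp⟩⟩
    have := hf i hi
    rw [add_zero] at this
    exact this.trans hε
  | insert v H' hv ih =>
    intro ψ ε ε' δ hε hδ
    obtain ⟨h', hh', hprop⟩ := ih ψ ((ε+ε')/2) ε' δ (by linarith) hδ
    obtain ⟨ψ', hψ'⟩ : ∃ ψ' : X →₀ ℝ, ψ' = ψ + h' := ⟨_, rfl⟩
    obtain ⟨S, hS⟩ : ∃ S : Finset X, S = ψ'.support ∪ v.support := ⟨_, rfl⟩
    obtain ⟨μ, hμdef⟩ : ∃ μ : ℝ, μ = min ((ε+ε')/2 - ε) δ := ⟨_, rfl⟩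
    have hμ : 0 < μ := by
      rw [hμdef]
      exact lt_min (by linarith) hδ
    obtain ⟨M, hM⟩ : ∃ M : ℝ, M = ε + ∑ i ∈ Finset.range k, |a i| := ⟨_, rfl⟩
    have hK := stepK (Y := S) (fun y => ψ' y) (fun y => v y) M
    have hC := stepC (Y := S) (fun y => ψ' y) (fun y => v y) M μ hμ
    have hZ := stepZ (Y := S) (fun y => ψ' y) (fun y => v y) M
    have hT : ∀ᶠ j in atTop, 1 ≤ TT j := stepZ_TT.eventually_ge_atTop 1
    obtain ⟨j, hjK, hjC, hjZ, hjT⟩ := (hK.and (hC.and (hZ.and hT))).exists
    refine ⟨h' + TT j • v, ?_, ?_⟩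
    · apply Submodule.add_mem
      · exact Submodule.span_mono (by simp) hh'
      · exact Submodule.smul_mem _ _ (Submodule.subset_span (by simp))
    intro f hf
    have hev : ∀ u : X → ℝ, ev (ψ + (h' + TT j • v)) u
        = ∑ y : S, (ψ' y + TT j * v y) * u y := by
      intro u
      have hsub : (ψ + (h' + TT j • v)).support ⊆ S := by
        rw [← add_assoc, ← hψ', hS]
        refine Finsupp.support_add.trans (Finset.union_subset_union (Finset.Subset.refl _) ?_)
        exact Finsupp.support_smul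
      rw [ev_eq_sum _ u S hsub, ← Finset.sum_coe_sort S]
      refine Finset.sum_congr rfl fun y _ => ?_
      rw [hψ']
      simp only [Finsupp.add_apply, Finsupp.smul_apply, smul_eq_mul]
      ring
    have hevv : ∀ u : X → ℝ, ev v u = ∑ y : S, v y * u y := by
      intro u
      have hsub : v.support ⊆ S := by
        rw [hS]
        exact Finset.subset_union_right
      rw [ev_eq_sum _ u S hsub, ← Finset.sum_coe_sort S]
    have key : ∀ i < k, |TT j * ev v (fun x => tau i (f x))| < μ := by
      intro i hi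
      have hb : |∑ y : S, (ψ' y + TT j * v y) * tau i (f y)| ≤ M := by
        have h0 := hev (fun x => tau i (f x))
        have h1 := hf i hi
        rw [h0] at h1
        have h2 : |a i| ≤ ∑ i ∈ Finset.range k, |a i| :=
          Finset.single_le_sum (f := fun i => |a i|) (fun _ _ => abs_nonneg _)
            (Finset.mem_range.mpr hi)
        have h3 := abs_add_le ((∑ y : S, (ψ' y + TT j * v y) * tau i (f y)) - a i) (a i)
        rw [sub_add_cancel] at h3
        linarith
      rw [hevv]
      match i with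
      | 0 =>
        have h4 := hjK (fun y => (f y).1) hb
        have h5 : ∑ y : S, v y * tau 0 (f y) = 0 := h4
        rw [h5, mul_zero, abs_zero]
        exact hμ
      | 1 => exact hjC (fun y => (f y).2) hb
      | (i+2) =>
        have h4 := hjZ (fun y => bit i (f y)) hb
        have h5 : ∑ y : S, v y * tau (i + 2) (f y) = 0 := h4
        rw [h5, mul_zero, abs_zero]
        exact hμ
    have hfi : ∀ i < k, |ev (ψ + h') (fun x => tau i (f x)) - a i| < (ε+ε')/2 := by
      intro i hi
      have h1 := hf i hi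
      have h2 := key i hi
      rw [← add_assoc, ev_add_left, ev_smul_left] at h1
      have h3 := lt_of_lt_of_le h2 (hμdef.le.trans (min_le_left _ _))
      rw [abs_lt] at *
      constructor <;> linarith [h1.1, h1.2, h3.1, h3.2]
    intro i hi
    obtain ⟨p, q⟩ := hprop f hfi i hi
    refine ⟨p, fun w hw => ?_⟩
    rcases Finset.mem_insert.mp hw with rfl | hw
    · have h2 := key i hi
      have h3 := lt_of_lt_of_le h2 (hμdef.le.trans (min_le_right _ _))
      rw [abs_mul, abs_of_pos (stepZ_pos j)] at h3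
      have h4 := abs_nonneg (ev w (fun x => tau i (f x)))
      nlinarith
    · exact q w hw



end Pool.Agent.Helper47.LP
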