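import Mathlib
import Pool.Agent.Helper47.LP.F

set_option autoImplicit false

open Set Topology Filter

namespace Pool.Agent.Helper47.LP

theorem en_step {X : Type} [TopologicalSpace X] (E : Set {f : X → AA // Continuous f})
    (k : ℕ) (a : ℕ → ℝ) (ε : ℝ) (hε : 0 < ε) (G : Finset (X → ℝ)) (ψ : X →₀ ℝ)
    (hh : ∀ h : X →₀ ℝ, (∀ w ∈ G, ev h w = 0) →
      ∃ f ∈ E, ∀ i < k, |ev (ψ + h) (fun x => tau i (f.1 x)) - a i| < ε)
    (S : Finset {v : X →₀ ℝ // ∀ w ∈ G, ev v w = 0}) (n : ℕ) :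
    ∃ f : {f : X → AA // Continuous f}, f ∈ E ∧ ∀ i < k,
      |ev ψ (fun x => tau i (f.1 x)) - a i| < 2 * ε ∧
      ∀ v ∈ S, |ev v.1 (fun x => tau i (f.1 x))| < 1 / ((n : ℝ) + 1) := by
  classical
  obtain ⟨h, hspan, hf⟩ := lemF k a (S.map ⟨Subtype.val, Subtype.val_injective⟩) ψ ε (2 * ε)
    (1 / ((n : ℝ) + 1)) (by linarith) (by positivity)
  have hann : ∀ w ∈ G, ev h w = 0 := by
    intro w hw
    clear hf
    induction hspan using Submodule.span_induction with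
    | mem v hv =>
      obtain ⟨u, _, rfl⟩ := Finset.mem_map.1 hv
      exact u.2 w hw
    | zero => exact ev_zero_left w
    | add u v _ _ hu hv => rw [ev_add_left, hu, hv, add_zero]
    | smul c v _ hv => rw [ev_smul_left, hv, mul_zero]
  obtain ⟨f, hfE, hfi⟩ := hh h hann
  refine ⟨f, hfE, fun i hi => ?_⟩
  obtain ⟨h1, h2⟩ := hf (fun x => f.1 x) hfi i hi
  exact ⟨h1, fun v hv => h2 v.1 (Finset.mem_map.2 ⟨v, hv, rfl⟩)⟩

theorem exists_net {X : Type} [TopologicalSpace X] (E : Set {f : X → AA // Continuous f})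
    (k : ℕ) (a : ℕ → ℝ) (ε : ℝ) (hε : 0 < ε) (G : Finset (X → ℝ)) (ψ : X →₀ ℝ)
    (hh : ∀ h : X →₀ ℝ, (∀ w ∈ G, ev h w = 0) →
      ∃ f ∈ E, ∀ i < k, |ev (ψ + h) (fun x => tau i (f.1 x)) - a i| < ε) :
    ∃ (ι : Type) (𝒰 : Ultrafilter ι) (f : ι → {f : X → AA // Continuous f}), (∀ s, f s ∈ E) ∧
      (∀ s, ∀ i < k, |ev ψ (fun x => tau i ((f s).1 x)) - a i| < 2 * ε) ∧
      ∀ v : X →₀ ℝ, (∀ w ∈ G, ev v w = 0) → ∀ i < k,
        Tendsto (fun s => ev v (fun x => tau i ((f s).1 x))) 𝒰 (𝓝 0) := by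
  classical
  choose f hfE hf using fun s : Finset {v : X →₀ ℝ // ∀ w ∈ G, ev v w = 0} × ℕ =>
    en_step E k a ε hε G ψ hh s.1 s.2
  refine ⟨Finset {v : X →₀ ℝ // ∀ w ∈ G, ev v w = 0} × ℕ, Ultrafilter.of atTop, f, hfE,
    fun s i hi => (hf s i hi).1, fun v hv i hi => ?_⟩
  refine Tendsto.mono_left ?_ (Ultrafilter.of_le atTop)
  rw [Metric.tendsto_nhds]
  intro δ hδ
  obtain ⟨n0, hn0⟩ := exists_nat_one_div_lt hδ
  filter_upwards [eventually_ge_atTop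
    (({⟨v, hv⟩}, n0) : Finset {v : X →₀ ℝ // ∀ w ∈ G, ev v w = 0} × ℕ)] with s hs
  rw [Real.dist_eq, sub_zero]
  have h1 : (⟨v, hv⟩ : {v : X →₀ ℝ // ∀ w ∈ G, ev v w = 0}) ∈ s.1 :=
    hs.1 (Finset.mem_singleton_self _)
  have h2 : n0 ≤ s.2 := hs.2
  have h3 := (hf s i hi).2 _ h1
  have h4 : 1 / ((s.2 : ℝ) + 1) ≤ 1 / ((n0 : ℝ) + 1) := by
    have : (n0 : ℝ) ≤ s.2 := by exact_mod_cast h2
    exact one_div_le_one_div_of_le (by positivity) (by linarith)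
  exact lt_of_lt_of_le h3 (h4.trans hn0.le)


end Pool.Agent.Helper47.LP
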