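import Mathlib
import Pool.Agent.Helper47.LP.Dual
import Pool.Agent.Helper47.LP.Code
import Pool.Agent.Helper47.LP.Net
import Pool.Agent.Helper47.LP.KapL

set_option autoImplicit false

open Set Topology Filter

namespace Pool.Agent.Helper47.LP

/-- `ev` as a linear map -/
noncomputable def evLin {X : Type} (u : X → ℝ) : (X →₀ ℝ) →ₗ[ℝ] ℝ where
  toFun h := ev h u
  map_add' h h' := ev_add_left h h' u
  map_smul' c h := ev_smul_left c h u

theorem lemG {X : Type} [TopologicalSpace X] (E : Set {f : X → AA // Continuous f}) (hE : IsClosed E)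
    (k : ℕ) (hk : 2 ≤ k) (a : ℕ → ℝ) (ε : ℝ) (hε : 0 < ε) (G : Finset (X → ℝ))
    (hG : ∀ w ∈ G, Continuous w) (ψ : X →₀ ℝ) (hψ : ∀ x, 0 ≤ ψ x)
    (hZ : ∀ Z : Set X, Z.Nonempty →
      Z.indicator (fun _ => (1 : ℝ)) ∈ Submodule.span ℝ (G : Set (X → ℝ)) → ∃ x ∈ Z, 0 < ψ x)
    (hh : ∀ h : X →₀ ℝ, (∀ w ∈ G, ev h w = 0) →
      ∃ f ∈ E, ∀ i < k, |ev (ψ + h) (fun x => tau i (f.1 x)) - a i| < ε) :
    ∃ g ∈ E, (fun x => kap (g.1 x).1) ∈ Submodule.span ℝ (G : Set (X → ℝ)) ∧
      (fun x => gam (g.1 x).2) ∈ Submodule.span ℝ (G : Set (X → ℝ)) ∧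
      ∀ i < k, |ev ψ (fun x => tau i (g.1 x)) - a i| ≤ 2 * ε := by
  obtain ⟨ι, 𝒰, f, hfE, hfa, hann⟩ := exists_net E k a ε hε G ψ hh
  obtain ⟨d, x, w, hw, hdual⟩ := exists_dual G
  have hu : ∀ y, Tendsto (fun s => kap ((f s).1 y).1 - ∑ j, kap ((f s).1 (x j)).1 * w j y) 𝒰 (𝓝 0) := by
    intro y
    set v : X →₀ ℝ := Finsupp.single y 1 - ∑ j, (w j y) • Finsupp.single (x j) (1 : ℝ) with hv
    have hev : ∀ u : X → ℝ, ev v u = u y - ∑ j, u (x j) * w j y := by
      intro u
      have h1 : ev v u = evLin u v := rfl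
      rw [h1, hv, map_sub, map_sum]
      simp only [map_smul, smul_eq_mul]
      have h2 : ∀ z : X, evLin u (Finsupp.single z (1 : ℝ)) = u z := by
        intro z
        show ev (Finsupp.single z (1 : ℝ)) u = u z
        rw [ev_single, one_mul]
      simp only [h2]
      congr 1
      exact Finset.sum_congr rfl fun j _ => mul_comm _ _
    have h3 := hann v (fun u hu => by
      rw [hev, ← hdual u (Submodule.subset_span hu) y, sub_self]) 0 (by omega)
    refine h3.congr fun s => ?_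
    rw [hev]
    rfl
  have hC : ∀ s, |ev ψ (fun y => kap ((f s).1 y).1)| ≤ |a 0| + 2 * ε := by
    intro s
    have h1 : |ev ψ (fun y => kap ((f s).1 y).1) - a 0| < 2 * ε := hfa s 0 (by omega)
    have h2 : ev ψ (fun y => kap ((f s).1 y).1) =
        (ev ψ (fun y => kap ((f s).1 y).1) - a 0) + a 0 := by ring
    rw [h2]
    refine (abs_add_le _ _).trans ?_
    linarith
  have hn := kap_limit 𝒰 (fun s y => ((f s).1 y).1) d x w (Submodule.span ℝ (G : Set (X → ℝ))) hw hu
    ψ hψ hZ (|a 0| + 2 * ε) hC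
  choose n hn using hn
  set b : X → (ℕ → Bool) := fun y => (𝒰.map (fun s => ((f s).1 y).2)).lim with hb
  have hbt : ∀ y, Tendsto (fun s => ((f s).1 y).2) 𝒰 (𝓝 (b y)) := fun y =>
    (𝒰.map (fun s => ((f s).1 y).2)).le_nhds_lim
  set g : X → AA := fun y => (n y, b y) with hg
  have hgt : ∀ y, Tendsto (fun s => (f s).1 y) 𝒰 (𝓝 (g y)) := by
    intro y
    have h1 : Tendsto (fun s => ((f s).1 y).1) 𝒰 (𝓝 (n y)) := by
      refine tendsto_const_nhds.congr' ?_
      filter_upwards [hn y] with s hs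
      exact hs.symm
    exact h1.prodMk_nhds (hbt y)
  have hevt : ∀ (v : X →₀ ℝ) (i : ℕ), Tendsto (fun s => ev v (fun x => tau i ((f s).1 x))) 𝒰
      (𝓝 (ev v (fun x => tau i (g x)))) := by
    intro v i
    have h1 : ∀ u : X → ℝ, ev v u = ∑ x ∈ v.support, v x * u x := fun u =>
      ev_eq_sum v u v.support (Finset.Subset.refl _)
    simp only [h1]
    refine tendsto_finsetSum _ fun y _ => ?_
    exact (((continuous_tau i).tendsto (g y)).comp (hgt y)).const_mul (v y)
  have hz : ∀ (v : X →₀ ℝ), (∀ w ∈ G, ev v w = 0) → ∀ i < k, ev v (fun x => tau i (g x)) = 0 :=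
    fun v hv i hi => tendsto_nhds_unique (hevt v i) (hann v hv i hi)
  have hk0 : (fun x => kap (g x).1) ∈ Submodule.span ℝ (G : Set (X → ℝ)) :=
    mem_span_of_ann G _ fun v hv => hz v hv 0 (by omega)
  have hk1 : (fun x => gam (g x).2) ∈ Submodule.span ℝ (G : Set (X → ℝ)) :=
    mem_span_of_ann G _ fun v hv => hz v hv 1 (by omega)
  have hcont : ∀ u ∈ Submodule.span ℝ (G : Set (X → ℝ)), Continuous u := by
    intro u hu
    induction hu using Submodule.span_induction with
    | mem u hu => exact hG u hu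
    | zero => exact continuous_const
    | add u v _ _ hu hv => exact hu.add hv
    | smul c u _ hu => exact hu.const_smul c
  have hgc : Continuous g := by
    rw [inducing_code.continuous_iff]
    exact (hcont _ hk0).prodMk (hcont _ hk1)
  refine ⟨⟨g, hgc⟩, ?_, hk0, hk1, ?_⟩
  · refine hE.mem_of_tendsto (f := f) (b := (𝒰 : Filter ι)) ?_ (Eventually.of_forall hfE)
    rw [tendsto_subtype_rng, tendsto_pi_nhds]
    exact hgt
  · intro i hi
    refine le_of_tendsto ((hevt ψ i).sub_const (a i)).abs (Eventually.of_forall fun s => ?_)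
    exact (hfa s i hi).le



end Pool.Agent.Helper47.LP
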