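import Mathlib
import Pool.Agent.Helper47.LP.G
import Pool.Agent.Helper47.LP.Dep

set_option autoImplicit false

open Set Topology Filter

namespace Pool.Agent.Helper47.LP

theorem j18955_fs_ne {X : Type} (S : Finset X) (c : X → ℝ) :
    ∀ x, (open Classical in if x ∈ S then c x else 0) ≠ 0 → x ∈ S := by
  intro x hx
  by_contra h
  exact hx (if_neg h)

/-- finitely supported measure with given masses -/
noncomputable def j18955_fs {X : Type} (S : Finset X) (c : X → ℝ) : X →₀ ℝ :=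
  Finsupp.onFinset S (fun x => open Classical in if x ∈ S then c x else 0) (j18955_fs_ne S c)

theorem j18955_fs_apply {X : Type} (S : Finset X) (c : X → ℝ) (x : X) :
    j18955_fs S c x = open Classical in if x ∈ S then c x else 0 := rfl

theorem j18955_ev_fs {X : Type} (S : Finset X) (c : X → ℝ) (u : X → ℝ) :
    ev (j18955_fs S c) u = ∑ x ∈ S, c x * u x := by
  rw [ev_eq_sum (j18955_fs S c) u S]
  · refine Finset.sum_congr rfl fun x hx => ?_
    rw [j18955_fs_apply, if_pos hx]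
  · intro x hx
    rw [Finsupp.mem_support_iff] at hx
    exact j18955_fs_ne S c x hx

theorem j18955_mem {X : Type} [TopologicalSpace X] (h : X →₀ ℝ) :
    (fun w : {f : X → ℝ // Continuous f} => ev h w.1) ∈
      Submodule.span ℝ (Set.range (fun (x : X) (f : {f : X → ℝ // Continuous f}) => f.1 x)) := by
  have he : (fun w : {f : X → ℝ // Continuous f} => ev h w.1) =
      ∑ x ∈ h.support, h x • (fun (f : {f : X → ℝ // Continuous f}) => f.1 x) := by
    funext w
    rw [ev_eq_sum h w.1 h.support subset_rfl, Finset.sum_apply]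
    rfl
  rw [he]
  exact Submodule.sum_mem _ fun x _ => Submodule.smul_mem _ _ (Submodule.subset_span ⟨x, rfl⟩)

/-- the point of `Lp X` given by a finitely supported measure -/
noncomputable def j18955_Φ {X : Type} [TopologicalSpace X] (h : X →₀ ℝ) : Lp X :=
  ⟨fun w => ev h w.1, j18955_mem h⟩

/-- the coded constants -/
noncomputable def j18955_aa (l : List ℚ) (i : ℕ) : ℝ := ((l.getD i 0 : ℚ) : ℝ)

theorem j18955_tc {X : Type} [TopologicalSpace X] (f : {f : X → AA // Continuous f}) (i : ℕ) :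
    Continuous (fun x => tau i (f.1 x)) := (continuous_tau i).comp f.2

/-- the closed sets -/
def j18955_F {X : Type} [TopologicalSpace X] (E : Set {f : X → AA // Continuous f})
    (p : ℕ × List ℚ) : Set (Lp X) :=
  {ψ | ∀ f ∈ E, ∃ i < p.1, 1 / 16 ≤ |ψ.1 ⟨fun x => tau i (f.1 x), j18955_tc f i⟩ -
    j18955_aa p.2 i|}

theorem j18955_F_closed {X : Type} [TopologicalSpace X] (E : Set {f : X → AA // Continuous f})
    (p : ℕ × List ℚ) : IsClosed (j18955_F E p) := by
  have he : j18955_F E p = ⋂ f ∈ E, ⋃ i ∈ Finset.range p.1,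
      {ψ : Lp X | 1 / 16 ≤ |ψ.1 ⟨fun x => tau i (f.1 x), j18955_tc f i⟩ - j18955_aa p.2 i|} := by
    ext ψ
    simp only [j18955_F, Set.mem_setOf_eq, Set.mem_iInter, Set.mem_iUnion, Finset.mem_range,
      exists_prop]
  rw [he]
  refine isClosed_biInter fun f _ => ?_
  refine isClosed_biUnion_finset fun i _ => ?_
  refine isClosed_le continuous_const ?_
  have h1 : Continuous (fun ψ : Lp X => ψ.1 ⟨fun x => tau i (f.1 x), j18955_tc f i⟩) :=
    (continuous_apply _).comp continuous_subtype_val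
  exact (h1.sub continuous_const).abs

theorem j18955_bits {X : Type} (Y : Finset X) (num : X → ℕ) (hnum : InjOn num (Y : Set X))
    (b b' : X → Bool)
    (h : |∑ y ∈ Y, (2:ℝ) ^ num y * (if b y then 1 else 0) -
      ∑ y ∈ Y, (2:ℝ) ^ num y * (if b' y then 1 else 0)| < 1) :
    ∀ y ∈ Y, b y = b' y := by
  classical
  have key : ∀ c : X → Bool, ∑ y ∈ Y, (2:ℝ) ^ num y * (if c y then 1 else 0) =
      ((∑ n ∈ (Y.filter (fun y => c y = true)).image num, 2 ^ n : ℕ) : ℝ) := by
    intro c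
    rw [Finset.sum_image]
    · rw [Finset.sum_filter]
      push_cast
      refine Finset.sum_congr rfl fun y _ => ?_
      by_cases hc : c y = true
      · simp [hc]
      · simp [hc]
    · intro y hy z hz hyz
      rw [Finset.mem_coe, Finset.mem_filter] at hy hz
      exact hnum hy.1 hz.1 hyz
  rw [key b, key b'] at h
  have h1 : (∑ n ∈ (Y.filter (fun y => b y = true)).image num, 2 ^ n) =
      ∑ n ∈ (Y.filter (fun y => b' y = true)).image num, 2 ^ n := by
    set u := ∑ n ∈ (Y.filter (fun y => b y = true)).image num, 2 ^ n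
    set v := ∑ n ∈ (Y.filter (fun y => b' y = true)).image num, 2 ^ n
    have h2 : |((u : ℤ) : ℝ) - ((v : ℤ) : ℝ)| < 1 := by exact_mod_cast h
    have h3 : |(u : ℤ) - (v : ℤ)| < 1 := by exact_mod_cast h2
    have h4 := Int.abs_lt_one_iff.1 h3
    omega
  have h2 := Finset.geomSum_injective (n := 2) le_rfl h1
  intro y hy
  have h3 : ∀ c : X → Bool, num y ∈ (Y.filter (fun y => c y = true)).image num ↔ c y = true := by
    intro c
    rw [Finset.mem_image]
    constructor
    · rintro ⟨z, hz, hzy⟩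
      rw [Finset.mem_filter] at hz
      rw [← hnum hz.1 hy hzy]
      exact hz.2
    · intro hc
      exact ⟨y, Finset.mem_filter.2 ⟨hy, hc⟩, rfl⟩
  have h4 := h3 b
  rw [h2, h3 b'] at h4
  exact (Bool.eq_iff_iff.2 h4).symm

theorem approx (X : Type) [TopologicalSpace X] (hL : PerfectlyNormalSpace (Lp X))
    (E : Set {f : X → AA // Continuous f}) (hE : IsClosed E) :
    ∃ W : Set (X → ℝ), W.Countable ∧ (∀ w ∈ W, Continuous w) ∧
      ∀ f₀ ∈ E, ∀ (Y : Finset X) (k : ℕ), ∃ g ∈ E,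
        (∃ G : Finset (X → ℝ), (G : Set (X → ℝ)) ⊆ W ∧
          (fun x => kap (g.1 x).1) ∈ Submodule.span ℝ (G : Set (X → ℝ)) ∧
          (fun x => gam (g.1 x).2) ∈ Submodule.span ℝ (G : Set (X → ℝ))) ∧
        ∀ y ∈ Y, ∀ i < k, bit i (g.1 y) = bit i (f₀.1 y) := by
  classical
  choose W hWc hW using fun p : ℕ × List ℚ => depends X hL (j18955_F E p) (j18955_F_closed E p)
  refine ⟨⋃ p, Subtype.val '' (W p), Set.countable_iUnion fun p => (hWc p).image _, ?_, ?_⟩
  · intro w hw
    obtain ⟨p, ⟨w', -, rfl⟩⟩ := Set.mem_iUnion.1 hw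
    exact w'.2
  intro f₀ hf₀ Y k
  obtain ⟨num, hnum⟩ := Set.countable_iff_exists_injOn.1 (Finset.countable_toSet Y)
  set ψ₀ : X →₀ ℝ := j18955_fs Y (fun y => 2 ^ num y) with hψ₀
  -- the rational approximations
  choose q hq using fun i : ℕ => exists_rat_near (ev ψ₀ (fun x => tau i (f₀.1 x)))
    (by norm_num : (0:ℝ) < 1 / 16)
  set l : List ℚ := (List.range (k + 2)).map q with hl
  have haa : ∀ i < k + 2, j18955_aa l i = (q i : ℝ) := by
    intro i hi
    unfold j18955_aa
    rw [hl, List.getD_eq_getElem _ _ (by simpa using hi)]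
    simp
  have hΦ₀ : j18955_Φ ψ₀ ∉ j18955_F E (k + 2, l) := by
    intro h
    obtain ⟨i, hi, h1⟩ := h f₀ hf₀
    have h2 := hq i
    have h3 : |ev ψ₀ (fun x => tau i (f₀.1 x)) - j18955_aa l i| < 1 / 16 := by
      rw [haa i hi]; exact h2
    exact absurd h1 (not_le.2 h3)
  obtain ⟨G, η, hGW, hη, hG⟩ := hW (k + 2, l) _ hΦ₀
  obtain ⟨P, hP⟩ := exists_P (G.image Subtype.val)
  -- the scale t
  obtain ⟨t, ht, htP, htG⟩ : ∃ t : ℝ, 0 < t ∧ t * P.card ≤ 1 / 16 ∧
      ∀ w ∈ G, |t * ∑ p ∈ P, w.1 p| < η := by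
    set m : ℝ := ∑ w ∈ G, |∑ p ∈ P, w.1 p| with hm
    have hm0 : 0 ≤ m := Finset.sum_nonneg fun _ _ => abs_nonneg _
    have hc0 : (0:ℝ) ≤ P.card := Nat.cast_nonneg _
    refine ⟨min (1 / (16 * (P.card + 1))) (η / (m + 1)), lt_min (by positivity) (by positivity),
      ?_, ?_⟩
    · calc min (1 / (16 * ((P.card : ℝ) + 1))) (η / (m + 1)) * P.card
          ≤ 1 / (16 * ((P.card : ℝ) + 1)) * P.card :=
            mul_le_mul_of_nonneg_right (min_le_left _ _) hc0
        _ ≤ 1 / 16 := by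
            rw [div_mul_eq_mul_div, div_le_div_iff₀ (by positivity) (by norm_num)]
            linarith
    · intro w hw
      have h1 : |∑ p ∈ P, w.1 p| ≤ m :=
        Finset.single_le_sum (f := fun w : {f : X → ℝ // Continuous f} => |∑ p ∈ P, w.1 p|)
          (fun _ _ => abs_nonneg _) hw
      have ht0 : 0 ≤ min (1 / (16 * ((P.card : ℝ) + 1))) (η / (m + 1)) :=
        le_min (by positivity) (by positivity)
      rw [abs_mul, abs_of_nonneg ht0]
      calc min (1 / (16 * ((P.card : ℝ) + 1))) (η / (m + 1)) * |∑ p ∈ P, w.1 p|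
          ≤ η / (m + 1) * m := mul_le_mul (min_le_right _ _) h1 (abs_nonneg _) (by positivity)
        _ < η := by
            rw [div_mul_eq_mul_div, div_lt_iff₀ (by positivity)]
            nlinarith
  set ψ₁ : X →₀ ℝ := ψ₀ + t • j18955_fs P (fun _ => 1) with hψ₁
  have hev₁ : ∀ u : X → ℝ, ev ψ₁ u = ev ψ₀ u + t * ∑ p ∈ P, u p := by
    intro u
    rw [hψ₁, ev_add_left, ev_smul_left, j18955_ev_fs P]
    simp
  have hpos₀ : ∀ x, 0 ≤ ψ₀ x := by
    intro x
    rw [hψ₀, j18955_fs_apply]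
    split_ifs
    · positivity
    · exact le_rfl
  have hposP : ∀ x, 0 ≤ j18955_fs P (fun _ => (1:ℝ)) x := by
    intro x
    rw [j18955_fs_apply]
    split_ifs
    · exact zero_le_one
    · exact le_rfl
  have hψ₁x : ∀ x, ψ₁ x = ψ₀ x + t * j18955_fs P (fun _ => (1:ℝ)) x := by
    intro x
    rw [hψ₁, Finsupp.add_apply, Finsupp.smul_apply, smul_eq_mul]
  obtain ⟨g, hgE, hg1, hg2, hg3⟩ := lemG E hE (k + 2) (by omega) (j18955_aa l) (1 / 16)
    (by norm_num) (G.image Subtype.val)
    (by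
      intro w hw
      rw [Finset.mem_image] at hw
      obtain ⟨w', -, rfl⟩ := hw
      exact w'.2)
    ψ₁ (by
      intro x
      rw [hψ₁x]
      exact add_nonneg (hpos₀ x) (mul_nonneg ht.le (hposP x)))
    (by
      intro Z hZ hZs
      obtain ⟨x, hxZ, hxP⟩ := hP Z hZ hZs
      refine ⟨x, hxZ, ?_⟩
      rw [hψ₁x, j18955_fs_apply P, if_pos hxP, mul_one]
      linarith [hpos₀ x])
    (by
      intro h hh
      have h1 : j18955_Φ (ψ₁ + h) ∉ j18955_F E (k + 2, l) := by
        apply hG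
        intro w hw
        show |ev (ψ₁ + h) w.1 - ev ψ₀ w.1| < η
        rw [ev_add_left, hev₁, hh w.1 (Finset.mem_image_of_mem _ hw), add_zero,
          add_sub_cancel_left]
        exact htG w hw
      unfold j18955_F at h1
      rw [Set.mem_setOf_eq] at h1
      push Not at h1
      exact h1)
  refine ⟨g, hgE, ⟨G.image Subtype.val, ?_, hg1, hg2⟩, ?_⟩
  · intro w hw
    rw [Finset.coe_image] at hw
    obtain ⟨w', hw', rfl⟩ := hw
    exact Set.mem_iUnion.2 ⟨(k + 2, l), w', hGW hw', rfl⟩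
  · intro y hy i hi
    refine j18955_bits Y num hnum (fun y => bit i (g.1 y)) (fun y => bit i (f₀.1 y)) ?_ y hy
    have e1 : ∀ f : {f : X → AA // Continuous f}, ∑ y ∈ Y, (2:ℝ) ^ num y *
        (if bit i (f.1 y) then 1 else 0) = ev ψ₀ (fun x => tau (i + 2) (f.1 x)) := by
      intro f
      rw [hψ₀, j18955_ev_fs]
      rfl
    show |∑ y ∈ Y, (2:ℝ) ^ num y * (if bit i (g.1 y) then 1 else 0) -
      ∑ y ∈ Y, (2:ℝ) ^ num y * (if bit i (f₀.1 y) then 1 else 0)| < 1
    rw [e1, e1]
    have h1 := hg3 (i + 2) (by omega)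
    have h2 := hq (i + 2)
    rw [← haa (i + 2) (by omega)] at h2
    rw [hev₁] at h1
    have h3 : |t * ∑ p ∈ P, tau (i + 2) (g.1 p)| ≤ 1 / 16 := by
      rw [abs_mul, abs_of_pos ht]
      refine le_trans (mul_le_mul_of_nonneg_left ?_ ht.le) htP
      calc |∑ p ∈ P, tau (i + 2) (g.1 p)| ≤ ∑ p ∈ P, |tau (i + 2) (g.1 p)| :=
            Finset.abs_sum_le_sum_abs _ _
        _ ≤ ∑ p ∈ P, (1:ℝ) := by
            refine Finset.sum_le_sum fun p _ => ?_
            show |(if bit i (g.1 p) then (1:ℝ) else 0)| ≤ 1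
            split_ifs <;> simp
        _ = P.card := by simp
    rw [abs_le] at h1 h3
    rw [abs_lt] at h2 ⊢
    constructor <;> linarith [h1.1, h1.2, h2.1, h2.2, h3.1, h3.2]



end Pool.Agent.Helper47.LP
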