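import Mathlib
import Pool.Agent.Helper47.LP.Dual
import Pool.Agent.Helper47.LP.Code

set_option autoImplicit false

open Set Topology Filter

namespace Pool.Agent.Helper47.LP

theorem exists_k (V : Set AA) (hV : IsOpen V) (p0 : AA) (hp : p0 ∈ V) :
    ∃ k, ∀ p : AA, (∀ i < k, bit i p = bit i p0) → p ∈ V := by
  have h1 : V ∈ 𝓝 (p0.1, p0.2) := hV.mem_nhds hp
  rw [mem_nhds_prod_iff] at h1
  obtain ⟨u, hu, v, hv, huv⟩ := h1
  have hu0 : p0.1 ∈ u := mem_of_mem_nhds hu
  obtain ⟨v', hv'v, hv', hv0⟩ := mem_nhds_iff.1 hv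
  obtain ⟨I, u', hI, hIu⟩ := isOpen_pi_iff.1 hv' p0.2 hv0
  refine ⟨2 * p0.1 + 1 + (2 * (I.sup id) + 2), fun p hpk => ?_⟩
  have h2 : p.1 = p0.1 := by
    have h := hpk (2 * p0.1) (by omega)
    have e1 : (2 * p0.1) % 2 = 0 := by omega
    have e2 : (2 * p0.1) / 2 = p0.1 := by omega
    simp only [bit, e1, if_true, e2, decide_true, decide_eq_true_eq] at h
    exact h
  have h3 : p.2 ∈ v := by
    apply hv'v
    apply hIu
    intro l hl
    have hl' : l ≤ I.sup id := Finset.le_sup (f := id) hl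
    have h := hpk (2 * l + 1) (by omega)
    have e1 : ¬ ((2 * l + 1) % 2 = 0) := by omega
    have e2 : (2 * l + 1) / 2 = l := by omega
    simp only [bit, e1, if_false, e2] at h
    rw [h]
    exact (hI l hl).2
  exact huv ⟨by show p.1 ∈ u; rw [h2]; exact hu0, h3⟩

theorem sep {X : Type} [TopologicalSpace X] (W : Set (X → ℝ)) (hW : W.Countable)
    (E : Set {f : X → AA // Continuous f})
    (h : ∀ f₀ ∈ E, ∀ (Y : Finset X) (k : ℕ), ∃ g ∈ E,
        (∃ G : Finset (X → ℝ), (G : Set (X → ℝ)) ⊆ W ∧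
          (fun x => kap (g.1 x).1) ∈ Submodule.span ℝ (G : Set (X → ℝ)) ∧
          (fun x => gam (g.1 x).2) ∈ Submodule.span ℝ (G : Set (X → ℝ))) ∧
        ∀ y ∈ Y, ∀ i < k, bit i (g.1 y) = bit i (f₀.1 y)) :
    TopologicalSpace.SeparableSpace E := by
  classical
  let EG : Finset (X → ℝ) → Set ↥E := fun G => {g | (fun x => kap (g.1.1 x).1) ∈
    Submodule.span ℝ (G : Set (X → ℝ)) ∧ (fun x => gam (g.1.1 x).2) ∈
    Submodule.span ℝ (G : Set (X → ℝ))}
  have hinc : IsInducing (fun g : ↥E => (g.1.1 : X → AA)) :=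
    IsInducing.subtypeVal.comp IsInducing.subtypeVal
  -- each piece is separable
  have hsep : ∀ G, TopologicalSpace.IsSeparable (EG G) := by
    intro G
    obtain ⟨d, x, w, hw, hdual⟩ := exists_dual G
    let Ψ : ↥(EG G) → X → ℝ × ℝ := fun g y => (kap (g.1.1.1 y).1, gam (g.1.1.1 y).2)
    have hΨ : IsInducing Ψ := by
      have h1 : IsInducing (fun g : ↥(EG G) => (g.1.1.1 : X → AA)) :=
        hinc.comp IsInducing.subtypeVal
      have h2 : IsInducing (Pi.map (fun (_ : X) (p : AA) => ((kap p.1, gam p.2) : ℝ × ℝ))) :=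
        IsInducing.piMap (fun _ => inducing_code)
      exact h2.comp h1
    let Φ : ↥(EG G) → Fin d → ℝ × ℝ := fun g j => Ψ g (x j)
    have hΦc : Continuous Φ := by
      apply continuous_pi
      intro j
      exact (continuous_apply (x j)).comp hΨ.continuous
    let L : (Fin d → ℝ × ℝ) → X → ℝ × ℝ := fun v y =>
      (∑ j, (v j).1 * w j y, ∑ j, (v j).2 * w j y)
    have hLc : Continuous L := by
      apply continuous_pi
      intro y
      show Continuous (fun v : Fin d → ℝ × ℝ => (∑ j, (v j).1 * w j y, ∑ j, (v j).2 * w j y))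
      fun_prop
    have hcomp : L ∘ Φ = Ψ := by
      funext g y
      have h1 := hdual _ g.2.1 y
      have h2 := hdual _ g.2.2 y
      exact Prod.ext h1.symm h2.symm
    have hΦ : IsInducing Φ := IsInducing.of_comp hΦc hLc (by rw [hcomp]; exact hΨ)
    haveI : SecondCountableTopology ↥(EG G) := hΦ.secondCountableTopology
    exact TopologicalSpace.IsSeparable.of_subtype _
  have hcount : {G : Finset (X → ℝ) | (G : Set (X → ℝ)) ⊆ W}.Countable := by
    have h1 := (Set.countable_setOf_finite_subset hW).preimage_of_injOn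
      (f := fun G : Finset (X → ℝ) => (G : Set (X → ℝ))) (Finset.coe_injective.injOn)
    refine h1.mono (fun G hG => ?_)
    show (G : Set (X → ℝ)).Finite ∧ (G : Set (X → ℝ)) ⊆ W
    exact ⟨G.finite_toSet, hG⟩
  haveI : Countable ↥{G : Finset (X → ℝ) | (G : Set (X → ℝ)) ⊆ W} := hcount.to_subtype
  have hU : TopologicalSpace.IsSeparable
      (⋃ G : ↥{G : Finset (X → ℝ) | (G : Set (X → ℝ)) ⊆ W}, EG G.1) :=
    TopologicalSpace.IsSeparable.iUnion (fun G => hsep G.1)
  rw [← TopologicalSpace.isSeparable_univ_iff]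
  have hdense : Dense (⋃ G : ↥{G : Finset (X → ℝ) | (G : Set (X → ℝ)) ⊆ W}, EG G.1) := by
    rw [dense_iff_inter_open]
    rintro U hUo ⟨f₀, hf₀⟩
    obtain ⟨V, hVo, rfl⟩ := hinc.isOpen_iff.1 hUo
    obtain ⟨Y, u, hYu, hsub⟩ := isOpen_pi_iff.1 hVo f₀.1.1 hf₀
    have hk : ∀ y : X, ∃ k, y ∈ Y → ∀ p : AA, (∀ i < k, bit i p = bit i (f₀.1.1 y)) → p ∈ u y := by
      intro y
      by_cases hy : y ∈ Y
      · obtain ⟨k, hk⟩ := exists_k (u y) (hYu y hy).1 (f₀.1.1 y) (hYu y hy).2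
        exact ⟨k, fun _ => hk⟩
      · exact ⟨0, fun h => absurd h hy⟩
    choose k hk using hk
    obtain ⟨g, hgE, ⟨G, hGW, hG1, hG2⟩, hg⟩ := h f₀.1 f₀.2 Y (Y.sup k)
    refine ⟨⟨g, hgE⟩, ?_, ?_⟩
    · show (g.1 : X → AA) ∈ V
      apply hsub
      intro y hy
      apply hk y hy
      intro i hi
      exact hg y hy i (lt_of_lt_of_le hi (Finset.le_sup (f := k) hy))
    · exact Set.mem_iUnion.2 ⟨⟨G, hGW⟩, hG1, hG2⟩
  have := hU.closure
  rwa [hdense.closure_eq] at this



end Pool.Agent.Helper47.LP
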