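import Mathlib
import Pool.Agent.Helper47.LP.Approx
import Pool.Agent.Helper47.LP.Sep
import Pool.Agent.Helper937.Szd2

set_option autoImplicit false

open Set Topology Filter

namespace Pool.Agent.Helper47.LP

theorem cs_of_perfect (X : Type) [TopologicalSpace X] (hX : Helper937.Szd.SZ X)
    (hL : PerfectlyNormalSpace (Lp X)) : Helper937.Szd.CS (Helper937.Szd.Cp X) := by
  have h1 : Helper937.Szd.CS {f : X → AA // Continuous f} := by
    intro E hE
    obtain ⟨W, hW, _, h⟩ := approx X hL E hE
    exact sep W hW E h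
  refine Helper937.Szd.CS.image (Z := {f : X → AA // Continuous f}) h1
    (fun q => ⟨fun x => Helper937.Szd.dec (q.1 x), Helper937.Szd.continuous_dec.comp q.2⟩) ?_ ?_
  · refine Continuous.subtype_mk (continuous_pi fun x => ?_) _
    exact Helper937.Szd.continuous_dec.comp ((continuous_apply x).comp continuous_subtype_val)
  · rintro ⟨F, hF⟩
    obtain ⟨q, hq, h⟩ := Helper937.Szd.lift hX F hF
    exact ⟨⟨q, hq⟩, Subtype.ext (funext h)⟩

theorem main (X : Type) [TopologicalSpace X] (hX : Helper937.Szd.SZ X)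
    (hL : PerfectlyNormalSpace (Lp X)) :
    (∀ (n : ℕ) (S : Set (Fin n → {f : X → ℝ // Continuous f})), IsClosed S →
      TopologicalSpace.SeparableSpace S) ∧
    PerfectlyNormalSpace {g : {f : X → ℝ // Continuous f} → ℝ // Continuous g} := by
  have hCS1 := cs_of_perfect X hX hL
  have hne : Nonempty (Helper937.Szd.Cp X) := ⟨⟨fun _ => 0, continuous_const⟩⟩
  have hCS : ∀ n, Helper937.Szd.CS (Fin n → Helper937.Szd.Cp X) := by
    intro n
    obtain ⟨R, hR, hRs⟩ := Helper937.Szd.exists_power (Helper937.Szd.exists_square X hX) n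
    exact Helper937.Szd.CS.image (Z := Helper937.Szd.Cp X) hCS1 R hR hRs
  refine ⟨fun n S hS => hCS n S hS, ?_⟩
  have hz : NormalSpace {g : {f : X → ℝ // Continuous f} → ℝ // Continuous g} ∧
      ∀ s : Set {g : {f : X → ℝ // Continuous f} → ℝ // Continuous g}, IsClosed s → IsGδ s := by
    apply Helper937.Szd.perfect_of_zero
    intro P hP
    exact Helper937.Szd.zero_set (X := X)
      (E := {g : {f : X → ℝ // Continuous f} → ℝ // Continuous g})
      (fun φ => φ.1) IsInducing.subtypeVal (fun φ => φ.2) hCS P hP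
  have := hz.1
  exact ⟨hz.2⟩

end Pool.Agent.Helper47.LP
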